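import Mathlib
import Pool.Agent.Helper943.LM.Words

set_option autoImplicit false

open scoped Classical

namespace Pool.Agent.TH109.M

open Pool.Agent.Helper943.LM (UA wpow)

noncomputable section

/-! ### alternating sums over the positions of a list -/

/-- `alt F [b_0,…,b_n] = ∑ (-1)^i F b_i [b_0,…,b_n]∖b_i` -/
def alt {ι M : Type} [AddCommGroup M] : (ι → List ι → M) → List ι → M
  | _, [] => 0
  | F, b :: bs => F b bs - alt (fun a l => F a (b :: l)) bs

variable {G : Type} [Group G]

/-! ### normal forms of an automatic structure with uniqueness -/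

def nf (U : UA G) (g : G) : List U.A := (U.ev_surj g).choose
theorem nf_mem (U : UA G) (g : G) : nf U g ∈ U.L := (U.ev_surj g).choose_spec.1
theorem nf_ev (U : UA G) (g : G) : U.ev (nf U g) = g := (U.ev_surj g).choose_spec.2
theorem nf_eq (U : UA G) {w : List U.A} (h : w ∈ U.L) : nf U (U.ev w) = w :=
  U.ev_inj (nf_mem U _) h (nf_ev U _)

/-- length of the normal form -/
def len (U : UA G) (g : G) : ℕ := (nf U g).length

/-- combing -/
def ct (U : UA G) (t : ℕ) (g : G) : G := U.ev ((nf U g).take t)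

/-! ### chains: the simplicial complex of all lists (augmented by the empty list) -/

abbrev Ch (G : Type) := List G →₀ ℤ

/-- boundary -/
def bd {G : Type} : Ch G →ₗ[ℤ] Ch G :=
  Finsupp.linearCombination ℤ (fun l => alt (fun _ l' => Finsupp.single l' (1 : ℤ)) l)

/-- left translation of chains -/
def tr (b : G) : Ch G →ₗ[ℤ] Ch G := Finsupp.lmapDomain ℤ ℤ (List.map (b * ·))

/-- one prism -/
def pr1 {G : Type} (f h : G → G) : List G → Ch G
  | [] => 0
  | a :: l => Finsupp.single (f a :: h a :: l.map h) 1 - (pr1 f h l).mapDomain (f a :: ·)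

/-- prism operator between two maps -/
def pr {G : Type} (f h : G → G) : Ch G →ₗ[ℤ] Ch G := Finsupp.linearCombination ℤ (pr1 f h)

/-- maximal length of a vertex -/
def rad (U : UA G) (z : Ch G) : ℕ := z.support.sup (fun l => (l.map (len U)).foldr max 0)

/-- cone operator -/
def cone (U : UA G) (z : Ch G) : Ch G := ∑ t ∈ Finset.range (rad U z), pr (ct U t) (ct U (t + 1)) z

/-- boxes, by recursion on the dimension -/
def eb (U : UA G) : ℕ → List G → Ch G
  | 0, _ => Finsupp.single [1] 1
  | n + 1, bs => cone U (alt (fun b l => tr b (eb U n l) - eb U n l) bs)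

/-- the coherent box spanned by a list of (commuting) elements -/
def box (U : UA G) (bs : List G) : Ch G := eb U bs.length bs

/-- norm of a chain -/
def nrm {G : Type} (c : Ch G) : ℕ := c.sum (fun _ n => n.natAbs)

/-! ### cochains -/

/-- pairing of a cochain with a chain -/
def pa {G K : Type} [AddCommGroup K] (φ : List G → K) : Ch G →ₗ[ℤ] K :=
  Finsupp.linearCombination ℤ φ

/-- coboundary -/
def dl {G K : Type} [AddCommGroup K] (ψ : List G → K) (l : List G) : K :=
  alt (fun _ l' => ψ l') l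

/-- translate of a cochain -/
def tc {K : Type} (b : G) (ψ : List G → K) (l : List G) : K := ψ (l.map (b * ·))

/-- cup product of differentials of functions: `cupd [X_1,…,X_m] = dX_1 ⌣ … ⌣ dX_m` -/
def cupd {G K : Type} [CommRing K] : List (G → K) → List G → K
  | [], _ => 1
  | X :: Xs, g :: h :: l => (X h - X g) * cupd Xs (h :: l)
  | _ :: _, _ => 0

/-- `u ⌣ β` for a `0`-cochain `u` -/
def cup0 {G K : Type} [CommRing K] (u : G → K) (β : List G → K) : List G → K
  | [] => 0
  | g :: l => u g * β (g :: l)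

/-- `df ⌣ β` for a `0`-cochain `f` -/
def cup1 {G K : Type} [CommRing K] (f : G → K) (β : List G → K) : List G → K
  | g :: h :: l => (f h - f g) * β (h :: l)
  | _ => 0

/-- Laplace expansion -/
def detA {G K : Type} [CommRing K] : List (G → K) → List G → K
  | [], _ => 1
  | X :: Xs, bs => alt (fun b l => X b * detA Xs l) bs

/-! ### statements about lengths and boxes -/

/-- facts about the length function -/
def LenF (U : UA G) : Prop :=
  (∃ C : ℕ, ∀ g h : G, len U (g * h) ≤ len U g + C * len U h) ∧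
  (∃ C : ℕ, ∀ g : G, len U g⁻¹ ≤ C * (len U g + 1)) ∧ ∀ n : ℕ, {g : G | len U g ≤ n}.Finite

/-- boxes have linear size and polynomial norm -/
def BoxB (U : UA G) : Prop :=
  ∀ j : ℕ, ∃ C : ℕ, ∃ W : Set G, W.Finite ∧ ∀ (n : ℕ) (bs : List G),
    1 ≤ n → bs.length = j → (∀ b ∈ bs, len U b ≤ n) →
    nrm (box U bs) ≤ C * n ^ j ∧ ∀ l ∈ (box U bs).support, l.length = j + 1 ∧
      (∀ v ∈ l, len U v ≤ C * n) ∧ ∀ v ∈ l, ∀ w ∈ l, v⁻¹ * w ∈ W

/-- boundary of a box -/
def BoxD (U : UA G) : Prop :=
  ∀ bs : List G, bs ≠ [] → (∀ a ∈ bs, ∀ b ∈ bs, a * b = b * a) →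
    bd (box U bs) = alt (fun b l => tr b (box U l) - box U l) bs

/-- Stokes for boxes -/
def BoxP (U : UA G) (K : Type) [AddCommGroup K] : Prop :=
  ∀ (ψ : List G → K) (bs : List G), bs ≠ [] → (∀ a ∈ bs, ∀ b ∈ bs, a * b = b * a) →
    pa (dl ψ) (box U bs) = alt (fun b l => pa (fun x => tc b ψ x - ψ x) (box U l)) bs

/-- pairing of cup products with boxes -/
def CupB (U : UA G) (K : Type) [CommRing K] : Prop :=
  ∀ (Xs : List (G → K)) (bs : List G), Xs.length = bs.length →
    (∀ a ∈ bs, ∀ b ∈ bs, a * b = b * a) → (∀ X ∈ Xs, ∀ b ∈ bs, ∀ g, X (b * g) = X b + X g) →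
    pa (cupd Xs) (box U bs) = detA Xs bs

/-! ### elimination -/

/-- one elimination step -/
def estep {ι K : Type} [CommRing K] (f : ι → G → K) (i : ι)
    (Z : List ι → (List G → K) → K) (L : List ι) (β : List G → K) : K :=
  Z L (cup0 (fun g => 1 - f i g) β) - Z (i :: L) (cup1 (f i) β)

/-- all eliminations -/
def elim {ι K : Type} [CommRing K] (f : ι → G → K) :
    List ι → (List ι → (List G → K) → K) → (List G → K) → K
  | [], Z, β => Z [] β
  | i :: cs, Z, β => elim f cs (estep f i Z) β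

/-- the terms of the eliminated expression -/
def terms {ι K : Type} [CommRing K] (f : ι → G → K) (β : List G → K) :
    List ι → List (List ι × (List G → K))
  | [] => [([], β)]
  | i :: cs => (terms f β cs).map (fun p => (p.1, cup0 (fun g => 1 - f i g) p.2)) ++
      (terms f β cs).map (fun p => (i :: p.1, fun l => - cup1 (f i) p.2 l))

/-! ### part C: automata with commuting loops -/

/-- closed words of the same length at a live state are equal -/
def Star (U : UA G) : Prop :=
  ∀ s, U.live s → ∀ X Y : List U.A, U.run s X = s → U.run s Y = s → X.length = Y.length → X = Y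

/-- state at time `t` -/
def st (U : UA G) (w : List U.A) (t : ℕ) : U.S := U.run U.s0 (w.take t)

/-- point at time `t` -/
def pt (U : UA G) (w : List U.A) (t : ℕ) : G := U.ev (w.take t)

/-- connection of states -/
def Cn (U : UA G) (s s' : U.S) : Prop := ∃ z, U.run s z = s'

/-- cyclic states -/
def Cy (U : UA G) (s : U.S) : Prop := ∃ X : List U.A, X ≠ [] ∧ U.run s X = s

/-- the closed word of length `ℓ` at `s` -/
def lp (U : UA G) (ℓ : ℕ) (s : U.S) : List U.A :=
  if h : ∃ X : List U.A, U.run s X = s ∧ X.length = ℓ then h.choose else []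

/-- the translation along the loop at time `t` -/
def EV (U : UA G) (ℓ : ℕ) (w : List U.A) (t : ℕ) : G :=
  pt U w t * U.ev (lp U ℓ (st U w t)) * (pt U w t)⁻¹

/-- `w` stays for `K` steps, from time `t` on, in a loop with translation `e` -/
def Sg (U : UA G) (ℓ K : ℕ) (w : List U.A) (e : G) (t : ℕ) : Prop :=
  t + K ≤ w.length ∧ Cy U (st U w t) ∧ Cn U (st U w (t + K)) (st U w t) ∧ EV U ℓ w t = e

/-- basic facts about loops of length `ℓ` -/
def LoopS (U : UA G) (ℓ : ℕ) : Prop :=
  0 < ℓ ∧
  (∀ s : U.S, U.live s → Cy U s → U.run s (lp U ℓ s) = s ∧ (lp U ℓ s).length = ℓ) ∧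
  (∀ s : U.S, U.live s → Cy U s → ∀ z : List U.A, Cn U (U.run s z) s →
    lp U ℓ s ++ z = z ++ lp U ℓ (U.run s z)) ∧
  (∀ w ∈ U.L, ∀ t t' : ℕ, t ≤ t' → Cy U (st U w t) → Cn U (st U w t') (st U w t) →
    EV U ℓ w t = EV U ℓ w t') ∧
  (∀ w ∈ U.L, ∀ t t' : ℕ, t ≤ t' → Cy U (st U w t) → Cy U (st U w t') →
    EV U ℓ w t = EV U ℓ w t' → Cn U (st U w t') (st U w t))

/-- `a_1^{m_1} ⋯ a_d^{m_d}` -/
def ml {G : Type} [Group G] : List G → List ℕ → G
  | a :: as, m :: ms => a ^ m * ml as ms
  | _, _ => 1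

/-- the conjugates `(a_1^{m_1} ⋯ a_{j-1}^{m_{j-1}}) a_j (a_1^{m_1} ⋯ a_{j-1}^{m_{j-1}})⁻¹` -/
def cj {G : Type} [Group G] : List G → List ℕ → List G
  | a :: as, m :: ms => a :: (cj as ms).map (fun b => a ^ m * b * (a ^ m)⁻¹)
  | _, _ => []

/-! ### metabelian groups -/

/-- `G` is an extension of the abelian group `M` by an abelian group -/
structure MB (G : Type) [Group G] (M : Type) [AddCommGroup M] where
  i : M → G
  i_add : ∀ a b, i (a + b) = i a * i b
  i_inj : Function.Injective i
  ρ : G →* AddMonoid.End M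
  conj : ∀ (g : G) (a : M), g * i a * g⁻¹ = i (ρ g a)
  comm : ∀ g h : G, ∃ a : M, i a = g * h * g⁻¹ * h⁻¹
  /-- `M` is generated by the commutators -/
  gen : ∀ N : AddSubgroup M, (∀ a : M, (∃ g h : G, i a = g * h * g⁻¹ * h⁻¹) → a ∈ N) → N = ⊤

/-- `M` is finitely generated as a module -/
def FGS {G : Type} [Group G] {M : Type} [AddCommGroup M] (B : MB G M) : Prop :=
  ∃ S0 : Finset M, ∀ N : AddSubgroup M, ((S0 : Set M) ⊆ N) → (∀ g, ∀ a ∈ N, B.ρ g a ∈ N) → N = ⊤

/-- equivariant quotients of `M` over fields are finite dimensional -/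
def FinDimS {G : Type} [Group G] {M : Type} [AddCommGroup M] (B : MB G M) : Prop :=
  ∀ (F : Type) [Field F] (E : Type) [AddCommGroup E] [Module F E] (j : M →+ E)
    (ρE : G → (E →ₗ[F] E)), Submodule.span F (Set.range j) = ⊤ →
    (∀ g a, j (B.ρ g a) = ρE g (j a)) → FiniteDimensional F E

end

end Pool.Agent.TH109.M
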