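import Mathlib
import Pool.Agent.TH109.M.Defs

set_option autoImplicit false

open scoped Classical

namespace Pool.Agent.TH109.M

open Pool.Agent.Helper943.LM (UA wpow)

noncomputable section

variable {G : Type} [Group G]

theorem pa_apply {K : Type} [AddCommGroup K] (φ : List G → K) (c : Ch G) :
    pa φ c = ∑ l ∈ c.support, c l • φ l := by
  unfold pa
  rw [Finsupp.linearCombination_apply]
  rfl

theorem pa_congr {K : Type} [AddCommGroup K] {φ φ' : List G → K} {c : Ch G}
    (h : ∀ l ∈ c.support, φ l = φ' l) : pa φ c = pa φ' c := by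
  rw [pa_apply, pa_apply]
  exact Finset.sum_congr rfl (fun l hl => by rw [h l hl])

theorem pa_zero {K : Type} [AddCommGroup K] {φ : List G → K} {c : Ch G}
    (h : ∀ l ∈ c.support, φ l = 0) : pa φ c = 0 := by
  rw [pa_apply]
  exact Finset.sum_eq_zero (fun l hl => by rw [h l hl, smul_zero])

theorem pa_add {K : Type} [AddCommGroup K] (φ φ' : List G → K) (c : Ch G) :
    pa (fun l => φ l + φ' l) c = pa φ c + pa φ' c := by
  rw [pa_apply, pa_apply, pa_apply, ← Finset.sum_add_distrib]
  exact Finset.sum_congr rfl (fun l _ => by rw [smul_add])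

theorem pa_norm {φ : List G → ℂ} {c : Ch G} {b : ℝ} (h : ∀ l ∈ c.support, ‖φ l‖ ≤ b) :
    ‖pa φ c‖ ≤ nrm c * b := by
  rw [pa_apply]
  refine (norm_sum_le _ _).trans ?_
  unfold nrm
  rw [Finsupp.sum, Nat.cast_sum, Finset.sum_mul]
  apply Finset.sum_le_sum
  intro l hl
  rw [zsmul_eq_mul, norm_mul]
  have h1 : ‖((c l : ℤ) : ℂ)‖ = ((c l).natAbs : ℝ) := by
    rw [Complex.norm_intCast, Nat.cast_natAbs, Int.cast_abs]
  rw [h1]
  exact mul_le_mul_of_nonneg_left (h l hl) (Nat.cast_nonneg _)

theorem support_card_le (c : Ch G) : c.support.card ≤ nrm c := by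
  unfold nrm
  rw [Finsupp.sum, Finset.card_eq_sum_ones]
  apply Finset.sum_le_sum
  intro l hl
  have := Finsupp.mem_support_iff.1 hl
  omega

/-- alternating sums over an appended list whose second part contributes nothing -/
theorem alt_append {ι M : Type} [AddCommGroup M] (c : ι → G) (bb : List G) :
    ∀ (L : List ι) (F : G → List G → M), (∀ b ∈ bb, ∀ l, F b l = 0) →
    alt F (L.map c ++ bb) = alt (fun i L' => F (c i) (L'.map c ++ bb)) L := by
  intro L
  induction L with
  | nil =>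
    intro F hF
    show alt F bb = 0
    have key : ∀ (bb' : List G) (F : G → List G → M), (∀ b ∈ bb', ∀ l, F b l = 0) → alt F bb' = 0 := by
      intro bb'
      induction bb' with
      | nil => intro F _; rfl
      | cons b bs ih =>
        intro F hF
        show F b bs - alt (fun a l => F a (b :: l)) bs = 0
        rw [hF b (by simp), ih _ (fun b' hb' l => hF b' (List.mem_cons_of_mem _ hb') _), sub_zero]
    exact key bb F hF
  | cons i L ih =>
    intro F hF
    show F (c i) (L.map c ++ bb) - alt (fun a l => F a (c i :: l)) (L.map c ++ bb) = _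
    rw [ih (fun a l => F a (c i :: l)) (fun b hb l => hF b hb _)]
    rfl

theorem cupd_inv {K : Type} [CommRing K] (b : G) : ∀ (Xs : List (G → K)),
    (∀ X ∈ Xs, ∀ g, X (b * g) = X b + X g) → ∀ l : List G,
    cupd Xs (l.map (b * ·)) = cupd Xs l := by
  intro Xs
  induction Xs with
  | nil => intro _ l; simp [cupd]
  | cons X Xs ih =>
    intro hX l
    match l with
    | [] => rfl
    | [g] => rfl
    | g :: h :: l =>
      show (X (b * h) - X (b * g)) * cupd Xs ((h :: l).map (b * ·)) = (X h - X g) * cupd Xs (h :: l)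
      rw [ih (fun Y hY => hX Y (List.mem_cons_of_mem _ hY)), hX X (by simp), hX X (by simp)]
      ring

/-- uniform version of `BoxB` -/
theorem boxB_unif {U : UA G} (h : BoxB U) (J : ℕ) : ∃ C : ℕ, ∃ W : Set G, W.Finite ∧
    ∀ (n : ℕ) (bs : List G), 1 ≤ n → bs.length ≤ J → (∀ b ∈ bs, len U b ≤ n) →
    nrm (box U bs) ≤ C * n ^ J ∧ ∀ l ∈ (box U bs).support, l.length = bs.length + 1 ∧
      ∀ v ∈ l, ∀ w ∈ l, v⁻¹ * w ∈ W := by
  induction J with
  | zero =>
    obtain ⟨C, W, hW, h1⟩ := h 0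
    refine ⟨C, W, hW, fun n bs hn hl hb => ?_⟩
    obtain ⟨h2, h3⟩ := h1 n bs hn (by omega) hb
    exact ⟨h2, fun l hl' => ⟨by rw [(h3 l hl').1]; omega, (h3 l hl').2.2⟩⟩
  | succ J ih =>
    obtain ⟨C, W, hW, h1⟩ := ih
    obtain ⟨C', W', hW', h1'⟩ := h (J + 1)
    refine ⟨C + C', W ∪ W', hW.union hW', fun n bs hn hl hb => ?_⟩
    have e1 : n ^ J ≤ n ^ (J + 1) := Nat.pow_le_pow_right hn (Nat.le_succ J)
    rcases Nat.lt_or_ge J bs.length with h4 | h4
    · obtain ⟨h2, h3⟩ := h1' n bs hn (by omega) hb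
      refine ⟨h2.trans (Nat.mul_le_mul_right _ (by omega)), fun l hl' => ⟨?_, ?_⟩⟩
      · rw [(h3 l hl').1]; omega
      · intro v hv w hw
        exact Or.inr ((h3 l hl').2.2 v hv w hw)
    · obtain ⟨h2, h3⟩ := h1 n bs hn h4 hb
      refine ⟨?_, fun l hl' => ⟨(h3 l hl').1, ?_⟩⟩
      · calc _ ≤ C * n ^ J := h2
          _ ≤ (C + C') * n ^ (J + 1) := Nat.mul_le_mul (by omega) e1
      · intro v hv w hw
        exact Or.inl ((h3 l hl').2 v hv w hw)

/-- all vertices of a chain -/
def vts (c : Ch G) : Finset G := c.support.biUnion (fun l => l.toFinset)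

theorem mem_vts {c : Ch G} {v : G} : v ∈ vts c ↔ ∃ l ∈ c.support, v ∈ l := by
  unfold vts
  simp

theorem vts_card {c : Ch G} {k : ℕ} (h : ∀ l ∈ c.support, l.length ≤ k) :
    (vts c).card ≤ nrm c * k := by
  unfold vts
  refine (Finset.card_biUnion_le).trans ?_
  calc ∑ l ∈ c.support, l.toFinset.card ≤ ∑ l ∈ c.support, k :=
        Finset.sum_le_sum (fun l hl => (List.toFinset_card_le l).trans (h l hl))
    _ = c.support.card * k := by rw [Finset.sum_const, smul_eq_mul]
    _ ≤ nrm c * k := Nat.mul_le_mul_right _ (support_card_le c)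

end

end Pool.Agent.TH109.M
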