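import Mathlib
import Pool.Agent.TH109.M.B1a

set_option autoImplicit false

open scoped Classical

namespace Pool.Agent.TH109.M

open Pool.Agent.Helper943.LM (UA wpow)

noncomputable section

variable {G : Type} [Group G]

/-- ultrametric: closed balls are stable under small translations -/
theorem v_add_le {L : Type} [Field L] {v : AbsoluteValue L ℝ} (hv : IsNonarchimedean v) {a b : L}
    {r : ℝ} (ha : v a ≤ r) (hb : v b ≤ r) : v (a + b) ≤ r :=
  (hv a b).trans (max_le ha hb)

theorem v_sub_le {L : Type} [Field L] {v : AbsoluteValue L ℝ} (hv : IsNonarchimedean v) {a b : L}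
    {r : ℝ} (ha : v a ≤ r) (hb : v b ≤ r) : v (a - b) ≤ r := by
  rw [sub_eq_add_neg]
  exact v_add_le hv ha (by rwa [v.map_neg])

section data

variable {M : Type} [AddCommGroup M] (U : UA G) (B : MB G M) {L : Type} [Field L]
  (χ : G →* Lˣ) (x : M →+ L) (X : G → L) {m s : ℕ}
  (v : Fin s → AbsoluteValue L ℝ) (b : Fin m → M)

/-- the sequence of elements of a box -/
def bsL (c : Fin s → M) (K : List (Fin s)) : List G :=
  K.map (fun i => B.i (c i)) ++ List.ofFn (fun j => B.i (b j))

theorem bsL_length (c : Fin s → M) (K : List (Fin s)) : (bsL B b c K).length = K.length + m := by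
  unfold bsL
  simp

theorem comm_i (a a' : M) : B.i a * B.i a' = B.i a' * B.i a := by
  rw [← B.i_add, ← B.i_add, add_comm]

theorem bsL_comm (c : Fin s → M) (K : List (Fin s)) :
    ∀ g ∈ bsL B b c K, ∀ h ∈ bsL B b c K, g * h = h * g := by
  have key : ∀ g ∈ bsL B b c K, ∃ a, B.i a = g := by
    intro g hg
    unfold bsL at hg
    rw [List.mem_append] at hg
    rcases hg with hg | hg
    · rw [List.mem_map] at hg
      obtain ⟨i, _, rfl⟩ := hg
      exact ⟨_, rfl⟩
    · rw [List.mem_ofFn] at hg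
      obtain ⟨j, rfl⟩ := hg
      exact ⟨_, rfl⟩
  intro g hg h hh
  obtain ⟨a, rfl⟩ := key g hg
  obtain ⟨a', rfl⟩ := key h hh
  exact comm_i B a a'

/-- nodup lists of indices -/
def NL (s : ℕ) : Finset (List (Fin s)) :=
  (Finset.univ : Finset {l : List (Fin s) // l.Nodup}).image Subtype.val

theorem mem_NL {s : ℕ} {K : List (Fin s)} : K ∈ NL s ↔ K.Nodup := by
  unfold NL
  simp

/-- vertices of boxes not involving `i` -/
def VV (c : Fin s → M) (i : Fin s) : Finset G :=
  ((NL s).filter (fun K => i ∉ K)).biUnion (fun K => vts (box U (bsL B b c K)))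

theorem mem_VV {c : Fin s → M} {i : Fin s} {g : G} : g ∈ VV U B b c i ↔
    ∃ K : List (Fin s), K.Nodup ∧ i ∉ K ∧ ∃ l ∈ (box U (bsL B b c K)).support, g ∈ l := by
  unfold VV
  simp only [Finset.mem_biUnion, Finset.mem_filter, mem_NL, mem_vts]
  constructor
  · rintro ⟨K, ⟨h1, h2⟩, h3⟩
    exact ⟨K, h1, h2, h3⟩
  · rintro ⟨K, h1, h2, h3⟩
    exact ⟨K, ⟨h1, h2⟩, h3⟩

theorem VV_update (c : Fin s → M) (i : Fin s) (a : M) :
    VV U B b (Function.update c i a) i = VV U B b c i := by
  unfold VV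
  apply Finset.biUnion_congr rfl
  intro K hK
  rw [Finset.mem_filter] at hK
  have : bsL B b (Function.update c i a) K = bsL B b c K := by
    unfold bsL
    congr 1
    apply List.map_congr_left
    intro j hj
    rw [Function.update_of_ne]
    rintro rfl
    exact hK.2 hj
  rw [this]

/-- bad tuples at the place `i` -/
def badT (r : ℝ) (c : Fin s → M) (i : Fin s) : Prop :=
  ∃ g ∈ VV U B b c i, ∃ g' ∈ VV U B b c i, v i (x (c i) - (X g' - X g)) ≤ r

theorem bad_count (hv : ∀ i, IsNonarchimedean (v i)) (r : ℝ) (T : Finset M) (c : Fin s → M)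
    (i : Fin s) (hT : ∀ a ∈ T, ∀ a' ∈ T, a ≠ a' → r < v i (x a - x a')) :
    (T.filter (fun a => badT U B x X v b r (Function.update c i a) i)).card ≤
      (VV U B b c i).card ^ 2 := by
  have h1 : ∀ a ∈ T.filter (fun a => badT U B x X v b r (Function.update c i a) i),
      ∃ p : G × G, p ∈ (VV U B b c i) ×ˢ (VV U B b c i) ∧ v i (x a - (X p.2 - X p.1)) ≤ r := by
    intro a ha
    rw [Finset.mem_filter] at ha
    obtain ⟨g, hg, g', hg', h⟩ := ha.2
    rw [VV_update] at hg hg'
    rw [Function.update_self] at h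
    exact ⟨(g, g'), Finset.mem_product.2 ⟨hg, hg'⟩, h⟩
  choose! p hp1 hp2 using h1
  rw [pow_two, ← Finset.card_product]
  apply Finset.card_le_card_of_injOn p
  · intro a ha
    exact hp1 a ha
  · intro a ha a' ha' hpp
    have ha2 := Finset.mem_coe.1 ha
    have ha2' := Finset.mem_coe.1 ha'
    by_contra hne
    have h2 := hT a (Finset.mem_filter.1 ha2).1 a' (Finset.mem_filter.1 ha2').1 hne
    have h3 := hp2 a ha2
    have h4 := hp2 a' ha2'
    rw [hpp] at h3
    have h5 := v_sub_le (hv i) h3 h4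
    have h6 : x a - (X (p a').2 - X (p a').1) - (x a' - (X (p a').2 - X (p a').1)) = x a - x a' := by
      ring
    rw [h6] at h5
    exact absurd h2 (not_lt.2 h5)

/-- the cut-off functions -/
def ff (κ : ℝ) (r : Fin s → ℝ) (c : Fin s → M) (i : Fin s) (g : G) : ℂ :=
  if v i (χ g : L) * κ ≤ r i ∧ ∃ g' ∈ VV U B b c i, v i (χ g' : L) * κ ≤ r i ∧ v i (X g - X g') ≤ r i
  then 1 else 0

theorem ff_01 (κ : ℝ) (r : Fin s → ℝ) (c : Fin s → M) (i : Fin s) (g : G) :
    ff U B χ X v b κ r c i g = 0 ∨ ff U B χ X v b κ r c i g = 1 := by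
  unfold ff
  split_ifs
  · exact Or.inr rfl
  · exact Or.inl rfl

theorem ff_inv (hv : ∀ i, IsNonarchimedean (v i)) (hχi : ∀ a, χ (B.i a) = 1)
    (hXa : ∀ a g, X (B.i a * g) = x a + X g) (κ : ℝ) (r : Fin s → ℝ) (c : Fin s → M) (i : Fin s)
    (a : M) (ha : v i (x a) ≤ r i) (g : G) :
    ff U B χ X v b κ r c i (B.i a * g) = ff U B χ X v b κ r c i g := by
  have h1 : χ (B.i a * g) = χ g := by rw [map_mul, hχi, one_mul]
  unfold ff
  rw [h1, hXa]
  have h2 : ∀ g', v i (x a + X g - X g') ≤ r i ↔ v i (X g - X g') ≤ r i := by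
    intro g'
    constructor
    · intro h
      have h3 := v_sub_le (hv i) h ha
      have h4 : x a + X g - X g' - x a = X g - X g' := by ring
      rwa [h4] at h3
    · intro h
      have h3 := v_add_le (hv i) ha h
      have h4 : x a + (X g - X g') = x a + X g - X g' := by ring
      rwa [h4] at h3
  simp only [h2]

theorem ff_zero (hχi : ∀ a, χ (B.i a) = 1)
    (hXa : ∀ a g, X (B.i a * g) = x a + X g) (κ : ℝ) (r : Fin s → ℝ) (c : Fin s → M) (i : Fin s)
    (hbad : ¬ badT U B x X v b (r i) c i) (g : G) (hg : g ∈ VV U B b c i) :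
    ff U B χ X v b κ r c i (B.i (c i) * g) = 0 := by
  unfold ff
  rw [if_neg]
  rintro ⟨_, g', hg', _, h⟩
  apply hbad
  refine ⟨g, hg, g', hg', ?_⟩
  rw [hXa] at h
  have h4 : x (c i) - (X g' - X g) = x (c i) + X g - X g' := by ring
  rwa [h4]

theorem ff_ne_one (κ : ℝ) (r : Fin s → ℝ) (hr : ∀ i, 0 ≤ r i) (c : Fin s → M) (i : Fin s)
    (g : G) (hg : g ∈ VV U B b c i) (h : ff U B χ X v b κ r c i g ≠ 1) :
    r i < v i (χ g : L) * κ := by
  by_contra hcon
  rw [not_lt] at hcon
  apply h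
  unfold ff
  rw [if_pos]
  refine ⟨hcon, g, hg, hcon, ?_⟩
  rw [sub_self, map_zero]
  exact hr i

theorem ff_ne (hv : ∀ i, IsNonarchimedean (v i))
    (hX : ∀ g h, X (g * h) = X g + χ g * X h) (κ : ℝ) (r : Fin s → ℝ)
    (c : Fin s → M) (i : Fin s) (g h : G) (hgh : v i (X (g⁻¹ * h)) ≤ κ)
    (hne : ff U B χ X v b κ r c i g ≠ ff U B χ X v b κ r c i h) :
    r i < v i (χ g : L) * κ ∨ r i < v i (χ h : L) * κ := by
  by_contra hcon
  rw [not_or, not_lt, not_lt] at hcon
  apply hne
  have h1 : v i (X h - X g) ≤ r i := by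
    have h2 : X h - X g = χ g * X (g⁻¹ * h) := by
      have h3 := hX g (g⁻¹ * h)
      rw [mul_inv_cancel_left] at h3
      rw [h3]
      ring
    rw [h2, map_mul]
    exact (mul_le_mul_of_nonneg_left hgh (AbsoluteValue.nonneg _ _)).trans hcon.1
  have h2 : ∀ g', v i (X g - X g') ≤ r i ↔ v i (X h - X g') ≤ r i := by
    intro g'
    constructor
    · intro h'
      have h3 := v_add_le (hv i) h1 h'
      have h4 : X h - X g + (X g - X g') = X h - X g' := by ring
      rwa [h4] at h3
    · intro h'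
      have h3 := v_sub_le (hv i) h' h1
      have h4 : X h - X g' - (X h - X g) = X g - X g' := by ring
      rwa [h4] at h3
  unfold ff
  simp only [hcon.1, hcon.2, h2]

end data

end

end Pool.Agent.TH109.M
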