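import Mathlib
import Pool.Agent.TH109.M.Defs
import Pool.Agent.TH914.J1551
import Pool.Agent.TH914.J1552
import Pool.Agent.TH11.J1553
import Pool.Agent.TH576.J1554
import Pool.Agent.TH89.J1555
import Pool.Agent.TH89.J1556
import Pool.Agent.TH293.J1563
import Pool.Agent.TH511.J1564
import Pool.Agent.TH511.J1565
import Pool.Agent.TH192.J1566
import Pool.Agent.TH576.J1567
import Pool.Agent.TH384.J1568
import Pool.Agent.TH576.J1569
import Pool.Agent.TH11.J1570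
import Pool.Agent.TH511.J1571

set_option autoImplicit false

open scoped Classical

/-! The lemmas delivered by teammates under one name space. -/

namespace Pool.Agent.TH109.M

open Pool.Agent.Helper943.LM (UA wpow)

noncomputable section

variable {G : Type} [Group G]

/-! A -/
theorem lenF (U : UA G) : LenF U := Pool.Agent.TH914.J1551.lenF U
theorem boxB (U : UA G) (h : LenF U) : BoxB U := Pool.Agent.TH914.J1551.boxB U h
theorem boxD (U : UA G) : BoxD U := Pool.Agent.TH914.J1551.boxD U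

/-! P -/
theorem pa_dl {K : Type} [AddCommGroup K] (ψ : List G → K) (c : Ch G) :
    pa (dl ψ) c = pa ψ (bd c) := Pool.Agent.TH914.J1552.pa_dl ψ c
theorem boxP {K : Type} [AddCommGroup K] (U : UA G) (h : BoxD U) : BoxP U K :=
  Pool.Agent.TH914.J1552.boxP U h
theorem cupB {K : Type} [CommRing K] (U : UA G) (h : BoxP U K) : CupB U K :=
  Pool.Agent.TH914.J1552.cupB U h
theorem dl_cupd {K : Type} [CommRing K] (Xs : List (G → K)) (l : List G)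
    (hl : l.length = Xs.length + 2) : dl (cupd Xs) l = 0 := Pool.Agent.TH914.J1552.dl_cupd Xs l hl
theorem detA_ofFn {K : Type} [CommRing K] (n : ℕ) (X : Fin n → G → K) (b : Fin n → G) :
    detA (List.ofFn X) (List.ofFn b) = (Matrix.of fun k j => X k (b j)).det :=
  Pool.Agent.TH914.J1552.detA_ofFn n X b

/-! FG, step 1, torsion, characters -/
theorem MB_fg {M : Type} [AddCommGroup M] (U : UA G) (B : MB G M) : FGS B :=
  Pool.Agent.TH576.J1554.MB_fg U B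
theorem closure_mu (U : UA G) : Subgroup.closure (Set.range U.mu) = ⊤ :=
  Pool.Agent.TH576.J1554.closure_mu U
theorem fin_dim {M : Type} [AddCommGroup M] (U : UA G) (B : MB G M) (hlen : LenF U)
    (hbb : BoxB U) (hcup : ∀ (K : Type) [Field K], CupB U K) (hfg : FGS B) : FinDimS B :=
  J.fin_dim U B hlen hbb hcup hfg
theorem tors_fin {M : Type} [AddCommGroup M] (B : MB G M) (h : FinDimS B) (hfg : FGS B)
    (S : Finset G) (hS : Subgroup.closure (S : Set G) = ⊤) :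
    {a : M | ∃ n : ℕ, 0 < n ∧ n • a = 0}.Finite := Pool.Agent.TH576.J1554.tors_fin B h hfg S hS
theorem exists_char {M : Type} [AddCommGroup M] (B : MB G M) (h : FinDimS B) (g0 : G)
    (hg : ∀ N : ℕ, 0 < N → ∀ k : ℕ, ∃ a : M, ∀ n : ℕ, 0 < n →
      n • (((B.ρ g0) ^ N - 1) ^ k) a ≠ 0) :
    ∃ (L : Type) (_ : Field L) (_ : NumberField L) (χ : G →* Lˣ) (x : M →+ L),
      (∀ g a, x (B.ρ g a) = (χ g : L) * x a) ∧ Submodule.span ℚ (Set.range x) = ⊤ ∧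
      ∀ N : ℕ, 0 < N → χ g0 ^ N ≠ 1 := J.exists_char B h g0 hg
theorem places {L : Type} [Field L] [NumberField L] (S : Finset G)
    (hS : Subgroup.closure (S : Set G) = ⊤) (χ : G →* Lˣ) (g0 : G)
    (h0 : ∀ N : ℕ, 0 < N → χ g0 ^ N ≠ 1) :
    ∃ (m s : ℕ) (σ : Fin m → L →+* ℂ) (v : Fin s → AbsoluteValue L ℝ), 0 < m ∧
      (∀ i, IsNonarchimedean (v i)) ∧
      (∀ g, (∏ k, ‖σ k (χ g : L)‖) * ∏ i, v i (χ g : L) = 1) ∧
      (∀ i, ∃ q, 1 < v i (χ q : L)) ∧ (s = 0 → ∃ k, 1 < ‖σ k (χ g0 : L)‖) ∧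
      ∀ T : Set L, Submodule.span ℚ T = ⊤ → ∃ b : Fin m → L, (∀ j, b j ∈ T) ∧
        (Matrix.of fun k j => σ k (b j)).det ≠ 0 := J.places S hS χ g0 h0

/-! B0 -/
theorem B0 {M : Type} [AddCommGroup M] (U : UA G) (hlen : LenF U) (hbb : BoxB U)
    (hcup : CupB U ℂ) (hdetA : ∀ (n : ℕ) (X : Fin n → G → ℂ) (b : Fin n → G),
      detA (List.ofFn X) (List.ofFn b) = (Matrix.of fun k j => X k (b j)).det)
    (B : MB G M) {L : Type} [Field L]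
    (χ : G →* Lˣ) (x : M →+ L) (hx : ∀ g a, x (B.ρ g a) = (χ g : L) * x a)
    (X : G → L) (hX : ∀ g h, X (g * h) = X g + χ g * X h) (hXi : ∀ a, X (B.i a) = x a)
    {m : ℕ} (σ : Fin m → L →+* ℂ) (hprod : ∀ g, (∏ k, ‖σ k (χ g : L)‖) = 1)
    (b : Fin m → M) (hdet : (Matrix.of fun k j => σ k (x (b j))).det ≠ 0)
    (g0 : G) (k0 : Fin m) (hk0 : 1 < ‖σ k0 (χ g0 : L)‖) : False :=
  Pool.Agent.TH511.J1564.B0 U hlen hbb hcup hdetA B χ x hx X hX hXi σ hprod b hdet g0 k0 hk0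
/-- size of the volume form on small lists -/
theorem vol_bound {L : Type} [Field L] (χ : G →* Lˣ) (X : G → L)
    (hX : ∀ g h, X (g * h) = X g + χ g * X h) {m : ℕ} (σ : Fin m → L →+* ℂ)
    (W : Set G) (hW : W.Finite) : ∃ C : ℝ, 0 < C ∧ ∀ l : List G, l.length = m + 1 →
      (∀ v ∈ l, ∀ w ∈ l, v⁻¹ * w ∈ W) → ∀ u ∈ l,
      ‖cupd (List.ofFn fun k => fun g => σ k (X g)) l‖ ≤ C * ∏ k, ‖σ k (χ u : L)‖ :=
  Pool.Agent.TH511.J1564.vol_bound χ X hX σ W hW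

/-! elimination -/
theorem elim_eq {ι K : Type} [CommRing K] (f : ι → G → K) (c : ι → G) (cs : List ι)
    (hnd : cs.Nodup) (Z : List ι → (List G → K) → K) (Inv : Set G) (m : ℕ) (hm : 0 < m)
    (vol : List G → K)
    (hadd : ∀ L β β', Z L (fun l => β l + β' l) = Z L β + Z L β')
    (hloc : ∀ L : List ι, L.Nodup → (∀ i ∈ L, i ∈ cs) → ∀ β β' : List G → K,
      (∀ l : List G, l.length = L.length + m + 1 →
        (∀ v ∈ l, ∀ j ∈ cs, j ∉ L → f j (c j * v) = 0) → β l = β' l) → Z L β = Z L β')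
    (hcoh : ∀ L : List ι, L.Nodup → (∀ i ∈ L, i ∈ cs) → ∀ β : List G → K,
      (∀ b ∈ Inv, ∀ l, β (l.map (b * ·)) = β l) →
      Z L (dl β) = alt (fun i L' => Z L' (fun l => tc (c i) β l - β l)) L)
    (hfinv : ∀ i ∈ cs, ∀ b ∈ Inv, ∀ g, f i (b * g) = f i g)
    (hfc : cs.Pairwise (fun i j => ∀ g, f i (c j * g) = f i g))
    (hvol : ∀ l : List G, l.length = m + 2 → dl vol l = 0)
    (hvinv : ∀ b ∈ Inv, ∀ l, vol (l.map (b * ·)) = vol l)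
    (hvc : ∀ i ∈ cs, ∀ l, vol (l.map (c i * ·)) = vol l) :
    elim f cs Z vol = Z [] vol :=
  Pool.Agent.TH293.J1563.elim_eq f c cs hnd Z Inv m hm vol hadd hloc hcoh hfinv hfc hvol hvinv hvc
theorem elim_terms {ι K : Type} [CommRing K] (f : ι → G → K) (cs : List ι)
    (Z : List ι → (List G → K) → K) (β : List G → K)
    (hadd : ∀ L β β', Z L (fun l => β l + β' l) = Z L β + Z L β') :
    elim f cs Z β = ((terms f β cs).map (fun p => Z p.1 p.2)).sum :=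
  Pool.Agent.TH293.J1563.elim_terms f cs Z β hadd
theorem terms_props {ι : Type} (f : ι → G → ℂ) (cs : List ι) (hnd : cs.Nodup)
    (hf : ∀ i g, f i g = 0 ∨ f i g = 1) (vol : List G → ℂ) :
    (terms f vol cs).length = 2 ^ cs.length ∧
    ∀ p ∈ terms f vol cs, List.Sublist p.1 cs ∧ ∀ l : List G, p.1.length < l.length →
      ‖p.2 l‖ ≤ ‖vol (l.drop p.1.length)‖ ∧
      (p.2 l ≠ 0 → ∀ j ∈ cs, (j ∉ p.1 → ∃ v ∈ l, f j v ≠ 1) ∧
        (j ∈ p.1 → ∃ v ∈ l, ∃ v' ∈ l, f j v ≠ f j v')) :=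
  Pool.Agent.TH293.J1563.terms_props f cs hnd hf vol

/-! candidates, selection -/
theorem candidates {M : Type} [AddCommGroup M] (U : UA G) (hlen : LenF U) (B : MB G M)
    {L : Type} [Field L]
    (χ : G →* Lˣ) (x : M →+ L) (hx : ∀ g a, x (B.ρ g a) = (χ g : L) * x a)
    {s : ℕ} (v : Fin s → AbsoluteValue L ℝ) (hv : ∀ i, IsNonarchimedean (v i))
    (hq : ∀ i, ∃ q, 1 < v i (χ q : L)) (ha : ∃ a, x a ≠ 0) :
    ∃ (R : Fin s → ℝ) (C : ℕ), (∀ i, 1 < R i) ∧ ∀ n : ℕ, 1 ≤ n → ∀ i : Fin s,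
      ∃ T : Finset M, T.card = 2 ^ n ∧ (∀ a ∈ T, len U (B.i a) ≤ C * n) ∧
        (∀ a ∈ T, ∀ k, i < k → v k (x a) ≤ R k ^ n) ∧
        ∀ a ∈ T, ∀ a' ∈ T, a ≠ a' → R i ^ n < v i (x a - x a') :=
  Pool.Agent.TH511.J1565.candidates U hlen B χ x hx v hv hq ha
theorem selection {α : Type} {s : ℕ} (T : Fin s → Finset α) (N Q : ℕ) (hT : ∀ i, (T i).card = N)
    (bad : Fin s → (Fin s → α) → Prop)
    (hbad : ∀ i, ∀ c : Fin s → α, (∀ j, c j ∈ T j) →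
      ((T i).filter (fun a => bad i (Function.update c i a))).card ≤ Q)
    (hlt : s * Q < N) : ∃ c : Fin s → α, (∀ j, c j ∈ T j) ∧ ∀ i, ¬ bad i c :=
  Pool.Agent.TH511.J1565.selection T N Q hT bad hbad hlt

/-! quasi-unipotent action implies commuting loops -/
theorem star_of_qu {M : Type} [AddCommGroup M] (U : UA G) (B : MB G M)
    (h : ∀ g, ∃ N : ℕ, 0 < N ∧ ∃ k : ℕ, ∀ a, (((B.ρ g) ^ N - 1) ^ k) a = 0) : Star U :=
  J.star_of_qu U B h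

/-! part C -/
theorem loopS (U : UA G) (hU : Star U) (ℓ : ℕ) (hℓ : 0 < ℓ)
    (hdiv : ∀ k, 1 ≤ k → k ≤ Nat.card U.S → k ∣ ℓ) : LoopS U ℓ :=
  Pool.Agent.TH576.J1567.loopS U hU ℓ hℓ hdiv
theorem pairL (U : UA G) (hU : Star U) : ∃ ℓ0 : ℕ, 0 < ℓ0 ∧ ∀ ℓ : ℕ, ℓ0 ∣ ℓ → LoopS U ℓ →
    ∃ K2 : ℕ, ∀ (a : U.A) (g e : G) (K t : ℕ), K2 ≤ K → Sg U ℓ K (nf U g) e t →
      ∃ t', t ≤ t' ∧ t' ≤ t + K ∧ Sg U ℓ (K - K2) (nf U (g * U.mu a)) e t' :=
  Pool.Agent.TH384.J1568.pairL U hU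
theorem decomp (U : UA G) (ℓ : ℕ) (hL : LoopS U ℓ) (hU : Star U) (D : ℕ)
    (hD : ∀ w ∈ U.L, ∀ es : List G, es.Nodup →
      (∀ e ∈ es, ∃ t ≤ w.length, Cy U (st U w t) ∧ EV U ℓ w t = e) → es.length ≤ D) :
    ∃ T : Finset (List G × G), (∀ τ ∈ T, τ.1.length = D) ∧ ∀ w ∈ U.L, ∀ (es : List G) (ts : List ℕ),
      es.length = D → es.Nodup → ts.Pairwise (· ≤ ·) →
      List.Forall₂ (fun t e => t ≤ w.length ∧ Cy U (st U w t) ∧ EV U ℓ w t = e) ts es →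
      ∃ τ ∈ T, ∃ m : List ℕ, m.length = D ∧ (∀ k ∈ m, k ≤ w.length) ∧
        U.ev w = ml τ.1 m * τ.2 ∧ cj τ.1 m = es :=
  Pool.Agent.TH576.J1569.decomp U ℓ hL hU D hD
theorem pump (U : UA G) (ℓ : ℕ) (hL : LoopS U ℓ) (hfin : ∀ n : ℕ, {g : G | len U g ≤ n}.Finite)
    (w : List U.A) (hw : w ∈ U.L) (D : ℕ)
    (ts : List ℕ) (hlen : ts.length = D) (hts : ts.Pairwise (· < ·))
    (hcy : ∀ t ∈ ts, t ≤ w.length ∧ Cy U (st U w t))
    (hdis : ts.Pairwise (fun t t' => ¬ Cn U (st U w t') (st U w t))) :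
    ∃ C : ℕ, ∀ n : ℕ, 1 ≤ n → n ^ D ≤ {g : G | len U g ≤ C * n}.ncard ∧
      ∃ w' ∈ U.L, w'.length ≤ C * n ∧ ∃ (ts' : List ℕ) (es' : List G), es'.length = D ∧
        ts'.Pairwise (· < ·) ∧ es'.Nodup ∧
        List.Forall₂ (fun t e => Sg U ℓ (n * ℓ) w' e t) ts' es' :=
  J.pump U ℓ hL hfin w hw D ts hlen hts hcy hdis
theorem countG (D : ℕ) (T : Finset (List G × G)) (hT : ∀ τ ∈ T, τ.1.length = D) (C : ℕ) :
    ∃ N : ℕ, ∀ n : ℕ, N ≤ n → ∀ (Bn : Finset G) (es : List G), n ^ D ≤ C * Bn.card →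
      (∀ h ∈ Bn, ∃ τ ∈ T, ∃ m : List ℕ, m.length = D ∧ (∀ k ∈ m, k ≤ C * n) ∧
        h = ml τ.1 m * τ.2 ∧ cj τ.1 m = es) →
      ∃ E : Subgroup G, (∀ x ∈ E, ∀ y ∈ E, x * y = y * x) ∧ ∃ F : Finset G, F.card ≤ N ∧
        ∀ h ∈ Bn, ∃ e ∈ E, ∃ f ∈ F, h = e * f := Pool.Agent.TH511.J1571.countG D T hT C
theorem limitL (N : ℕ) (h : ∀ S : Finset G, ∃ E : Subgroup G, (∀ x ∈ E, ∀ y ∈ E, x * y = y * x) ∧
      ∃ F : Finset G, F.card ≤ N ∧ ∀ g ∈ S, ∃ e ∈ E, ∃ f ∈ F, g = e * f) :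
    ∃ H : Subgroup G, H.FiniteIndex ∧ ∀ x ∈ H, ∀ y ∈ H, x * y = y * x :=
  Pool.Agent.TH511.J1571.limitL N h

end

end Pool.Agent.TH109.M
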