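import Mathlib
import Pool.Agent.TH109.M.B1b
import Pool.Agent.TH109.M.Base

set_option autoImplicit false

open scoped Classical

namespace Pool.Agent.TH109.M

open Pool.Agent.Helper943.LM (UA wpow)

noncomputable section

variable {G : Type} [Group G]

/-- the order of elimination -/
def css (s : ℕ) : List (Fin s) := (List.finRange s).reverse

theorem css_nodup (s : ℕ) : (css s).Nodup := by
  unfold css
  rw [List.nodup_reverse]
  exact List.nodup_finRange s

theorem mem_css {s : ℕ} (i : Fin s) : i ∈ css s := by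
  unfold css
  rw [List.mem_reverse]
  exact List.mem_finRange i

theorem css_length (s : ℕ) : (css s).length = s := by
  unfold css
  simp

theorem css_pairwise (s : ℕ) : (css s).Pairwise (fun i j => j < i) := by
  unfold css
  rw [List.pairwise_reverse]
  exact List.pairwise_lt_finRange s

/-- the algebraic part of the argument: if there are no bad coordinates then the volume of the
small box is the sum of the eliminated terms -/
theorem elim_vol {M : Type} [AddCommGroup M] (U : UA G) (hbb : BoxB U)
    (hbp : BoxP U ℂ) (hcup : CupB U ℂ) (B : MB G M) {L : Type} [Field L]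
    (χ : G →* Lˣ) (x : M →+ L)
    (X : G → L) (hX : ∀ g h, X (g * h) = X g + χ g * X h)
    (hχi : ∀ a, χ (B.i a) = 1) (hXa : ∀ a g, X (B.i a * g) = x a + X g)
    (hX0 : ∀ a, X (B.i a) = x a)
    {m s : ℕ} (σ : Fin m → L →+* ℂ) (v : Fin s → AbsoluteValue L ℝ) (hm : 0 < m)
    (hv : ∀ i, IsNonarchimedean (v i))
    (b : Fin m → M) (κ : ℝ) (r : Fin s → ℝ) (c : Fin s → M)
    (hb : ∀ i j, v i (x (b j)) ≤ r i) (hc : ∀ i j, j < i → v i (x (c j)) ≤ r i)
    (hbad : ∀ i, ¬ badT U B x X v b (r i) c i) :
    ((terms (ff U B χ X v b κ r c) (cupd (List.ofFn fun k => fun g => σ k (X g))) (css s)).map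
      (fun p => pa p.2 (box U (bsL B b c p.1)))).sum =
      (Matrix.of fun k j => σ k (x (b j))).det := by
  have hadd : ∀ (K : List (Fin s)) (β β' : List G → ℂ),
      pa (fun l => β l + β' l) (box U (bsL B b c K)) =
        pa β (box U (bsL B b c K)) + pa β' (box U (bsL B b c K)) :=
    fun K β β' => pa_add β β' _
  have hlenS : ∀ (K : List (Fin s)), ∀ l ∈ (box U (bsL B b c K)).support,
      l.length = K.length + m + 1 := by
    intro K l hl
    obtain ⟨C, W, hW, h1⟩ := hbb (K.length + m)
    have hfin : ∃ n : ℕ, 1 ≤ n ∧ ∀ g ∈ bsL B b c K, len U g ≤ n := by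
      refine ⟨((bsL B b c K).map (len U)).sum + 1, by omega, fun g hg => ?_⟩
      have := List.single_le_sum (l := (bsL B b c K).map (len U)) (fun _ _ => Nat.zero_le _)
        (len U g) (List.mem_map_of_mem hg)
      omega
    obtain ⟨n, hn, hn2⟩ := hfin
    exact ((h1 n _ hn (bsL_length B b c K) hn2).2 l hl).1
  rw [← elim_terms (ff U B χ X v b κ r c) (css s)
    (fun K β => pa β (box U (bsL B b c K))) _ hadd]
  rw [elim_eq (ff U B χ X v b κ r c) (fun i => B.i (c i)) (css s) (css_nodup s)
    (fun K β => pa β (box U (bsL B b c K))) (Set.range (fun j => B.i (b j))) m hm _ hadd]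
  · show pa _ (box U (bsL B b c [])) = _
    have h1 : bsL B b c [] = List.ofFn (fun j => B.i (b j)) := rfl
    rw [h1, hcup]
    · rw [detA_ofFn]
      congr 1
      ext k j
      show σ k (X (B.i (b j))) = σ k (x (b j))
      rw [hX0]
    · simp
    · intro g hg h hh
      exact bsL_comm B b c [] g (by rw [h1]; exact hg) h (by rw [h1]; exact hh)
    · intro Y hY g hg h
      rw [List.mem_ofFn] at hY hg
      obtain ⟨k, rfl⟩ := hY
      obtain ⟨j, rfl⟩ := hg
      show σ k (X (B.i (b j) * h)) = σ k (X (B.i (b j))) + σ k (X h)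
      rw [hXa, hX0, map_add]
  · -- locality
    intro K hK _ β β' h
    apply pa_congr
    intro l hl
    apply h l (hlenS K l hl)
    intro g hg j _ hj
    exact ff_zero U B χ x X v b hχi hXa κ r c j (hbad j) g
      ((mem_VV U B b).2 ⟨K, hK, hj, l, hl, hg⟩)
  · -- coherence
    intro K hK _ β hβ
    show pa (dl β) (box U (bsL B b c K)) = _
    rw [hbp β (bsL B b c K) ?_ (bsL_comm B b c K)]
    · unfold bsL
      rw [alt_append (fun i => B.i (c i)) (List.ofFn (fun j => B.i (b j))) K
        (fun b' l => pa (fun y => tc b' β y - β y) (box U l))]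
      intro b' hb' l
      apply pa_zero
      intro y _
      rw [List.mem_ofFn] at hb'
      obtain ⟨j, rfl⟩ := hb'
      show β (y.map (B.i (b j) * ·)) - β y = 0
      rw [hβ _ ⟨j, rfl⟩, sub_self]
    · intro h
      have := congrArg List.length h
      rw [bsL_length] at this
      simp at this
      omega
  · -- invariance of the cut-off functions
    rintro i _ g ⟨j, rfl⟩ h
    exact ff_inv U B χ x X v b hv hχi hXa κ r c i (b j) (hb i j) h
  · exact (css_pairwise s).imp (fun {i j} hij g =>
      ff_inv U B χ x X v b hv hχi hXa κ r c i (c j) (hc i j hij) g)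
  · intro l hl
    apply dl_cupd
    rw [hl, List.length_ofFn]
  · rintro g ⟨j, rfl⟩ l
    apply cupd_inv
    intro Y hY h
    rw [List.mem_ofFn] at hY
    obtain ⟨k, rfl⟩ := hY
    show σ k (X (B.i (b j) * h)) = σ k (X (B.i (b j))) + σ k (X h)
    rw [hXa, hX0, map_add]
  · intro i _ l
    apply cupd_inv
    intro Y hY h
    rw [List.mem_ofFn] at hY
    obtain ⟨k, rfl⟩ := hY
    show σ k (X (B.i (c i) * h)) = σ k (X (B.i (c i))) + σ k (X h)
    rw [hXa, hX0, map_add]

end

end Pool.Agent.TH109.M
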