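import Mathlib
import Pool.Agent.TH109.M.B1c
import Pool.Agent.TH109.M.Base

set_option autoImplicit false

open scoped Classical

namespace Pool.Agent.TH109.M

open Pool.Agent.Helper943.LM (UA wpow)

noncomputable section

variable {G : Type} [Group G]

theorem term_bound {M : Type} [AddCommGroup M] (U : UA G) (B : MB G M) {L : Type} [Field L]
    (χ : G →* Lˣ) (X : G → L) (hX : ∀ g h, X (g * h) = X g + χ g * X h)
    {m s : ℕ} (σ : Fin m → L →+* ℂ) (v : Fin s → AbsoluteValue L ℝ)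
    (hv : ∀ i, IsNonarchimedean (v i))
    (hprod : ∀ g, (∏ k, ‖σ k (χ g : L)‖) * ∏ i, v i (χ g : L) = 1)
    (b : Fin m → M) (κ κ2 C3 : ℝ) (hκ : 0 < κ) (hκ2 : 0 < κ2) (hC3 : 0 < C3)
    (r : Fin s → ℝ) (hr : ∀ i, 0 < r i) (c : Fin s → M)
    (W : Set G) (hWκ : ∀ w ∈ W, ∀ i, v i (X w) ≤ κ) (hWκ2 : ∀ w ∈ W, ∀ i, v i (χ w : L) ≤ κ2)
    (hvol : ∀ l : List G, l.length = m + 1 →
      (∀ v ∈ l, ∀ w ∈ l, v⁻¹ * w ∈ W) → ∀ u ∈ l,
      ‖cupd (List.ofFn fun k => fun g => σ k (X g)) l‖ ≤ C3 * ∏ k, ‖σ k (χ u : L)‖)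
    (p : List (Fin s) × (List G → ℂ))
    (hp : p ∈ terms (ff U B χ X v b κ r c) (cupd (List.ofFn fun k => fun g => σ k (X g))) (css s))
    (hbox : ∀ l ∈ (box U (bsL B b c p.1)).support, l.length = p.1.length + m + 1 ∧
      ∀ v ∈ l, ∀ w ∈ l, v⁻¹ * w ∈ W) :
    ‖pa p.2 (box U (bsL B b c p.1))‖ ≤
      nrm (box U (bsL B b c p.1)) * (C3 * (κ * κ2) ^ s / ∏ i, r i) := by
  have hrp : 0 < ∏ i, r i := Finset.prod_pos (fun i _ => hr i)
  have hb0 : 0 ≤ C3 * (κ * κ2) ^ s / ∏ i, r i := by positivity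
  apply pa_norm
  intro l hl
  obtain ⟨hl1, hl2⟩ := hbox l hl
  obtain ⟨hsub, hprop⟩ := (terms_props (ff U B χ X v b κ r c) (css s) (css_nodup s)
    (ff_01 U B χ X v b κ r c) (cupd (List.ofFn fun k => fun g => σ k (X g)))).2 p hp
  have hnd : p.1.Nodup := hsub.nodup (css_nodup s)
  obtain ⟨h1, h2⟩ := hprop l (by omega)
  by_cases h0 : p.2 l = 0
  · rw [h0, norm_zero]
    exact hb0
  have h3 := h2 h0
  have hdl : (l.drop p.1.length).length = m + 1 := by
    rw [List.length_drop]; omega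
  obtain ⟨u0, hu0⟩ : ∃ u0, u0 ∈ l.drop p.1.length := by
    apply List.exists_mem_of_length_pos
    omega
  have hdsub : ∀ g ∈ l.drop p.1.length, g ∈ l := fun g hg => List.mem_of_mem_drop hg
  have h4 := hvol (l.drop p.1.length) hdl
    (fun g hg h hh => hl2 g (hdsub g hg) h (hdsub h hh)) u0 hu0
  -- a vertex outside `U_j` for all `j`
  have h5 : ∀ j, r j ≤ v j (χ u0 : L) * (κ * κ2) := by
    intro j
    have h6 : ∃ u ∈ l, r j < v j (χ u : L) * κ := by
      by_cases hj : j ∈ p.1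
      · obtain ⟨g, hg, g', hg', hne⟩ := (h3 j (mem_css j)).2 hj
        rcases ff_ne U B χ X v b hv hX κ r c j g g' (hWκ _ (hl2 g hg g' hg') j) hne with h | h
        · exact ⟨g, hg, h⟩
        · exact ⟨g', hg', h⟩
      · obtain ⟨g, hg, hne⟩ := (h3 j (mem_css j)).1 hj
        exact ⟨g, hg, ff_ne_one U B χ X v b κ r (fun i => (hr i).le) c j g
          ((mem_VV U B b).2 ⟨p.1, hnd, hj, l, hl, hg⟩) hne⟩
    obtain ⟨u, hu, h7⟩ := h6
    have h8 : (χ u : L) = (χ u0 : L) * (χ (u0⁻¹ * u) : L) := by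
      rw [← Units.val_mul, ← map_mul, mul_inv_cancel_left]
    have h9 := hWκ2 _ (hl2 u0 (hdsub u0 hu0) u hu) j
    rw [h8, map_mul] at h7
    refine h7.le.trans ?_
    have h10 : 0 ≤ v j (χ u0 : L) := AbsoluteValue.nonneg _ _
    calc v j (χ u0 : L) * v j (χ (u0⁻¹ * u) : L) * κ ≤ v j (χ u0 : L) * κ2 * κ := by gcongr
      _ = v j (χ u0 : L) * (κ * κ2) := by ring
  have h6 : ∏ i, r i ≤ (∏ i, v i (χ u0 : L)) * (κ * κ2) ^ s := by
    calc ∏ i, r i ≤ ∏ i, (v i (χ u0 : L) * (κ * κ2)) :=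
          Finset.prod_le_prod (fun i _ => (hr i).le) (fun i _ => h5 i)
      _ = (∏ i, v i (χ u0 : L)) * (κ * κ2) ^ s := by
          rw [Finset.prod_mul_distrib, Finset.prod_const, Finset.card_univ, Fintype.card_fin]
  have h7 := hprod u0
  have h8 : 0 < ∏ i, v i (χ u0 : L) :=
    Finset.prod_pos (fun i _ => (v i).pos (Units.ne_zero _))
  have h9 : ∏ k, ‖σ k (χ u0 : L)‖ ≤ (κ * κ2) ^ s / ∏ i, r i := by
    have h10 : ∏ k, ‖σ k (χ u0 : L)‖ = 1 / ∏ i, v i (χ u0 : L) := by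
      rw [eq_div_iff h8.ne']
      exact h7
    rw [h10, div_le_div_iff₀ h8 hrp, one_mul, mul_comm ((κ * κ2) ^ s)]
    exact h6
  calc ‖p.2 l‖ ≤ _ := h1
    _ ≤ _ := h4
    _ ≤ C3 * ((κ * κ2) ^ s / ∏ i, r i) := mul_le_mul_of_nonneg_left h9 hC3.le
    _ = _ := by rw [mul_div_assoc]

theorem exists_kappa {L : Type} [Field L] {s : ℕ} (v : Fin s → AbsoluteValue L ℝ)
    (Y : G → L) (W : Set G) (hW : W.Finite) : ∃ κ : ℝ, 0 < κ ∧ ∀ w ∈ W, ∀ i, v i (Y w) ≤ κ := by
  obtain ⟨κ, hκ⟩ := ((hW.prod (Set.finite_univ (α := Fin s))).image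
    (fun p : G × Fin s => v p.2 (Y p.1))).bddAbove
  refine ⟨max κ 1, lt_of_lt_of_le one_pos (le_max_right _ _), fun w hw i => ?_⟩
  exact (hκ ⟨(w, i), ⟨hw, trivial⟩, rfl⟩).trans (le_max_left _ _)

theorem B1' {M : Type} [AddCommGroup M] (U : UA G) (hlen : LenF U) (hbb : BoxB U)
    (hbp : BoxP U ℂ) (hcup : CupB U ℂ) (B : MB G M) {L : Type} [Field L]
    (χ : G →* Lˣ) (x : M →+ L) (hx : ∀ g a, x (B.ρ g a) = (χ g : L) * x a)
    (X : G → L) (hX : ∀ g h, X (g * h) = X g + χ g * X h) (hXi : ∀ a, X (B.i a) = x a)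
    {m s : ℕ} (σ : Fin m → L →+* ℂ) (v : Fin s → AbsoluteValue L ℝ) (hm : 0 < m) (hs : 0 < s)
    (hv : ∀ i, IsNonarchimedean (v i))
    (hprod : ∀ g, (∏ k, ‖σ k (χ g : L)‖) * ∏ i, v i (χ g : L) = 1)
    (hq : ∀ i, ∃ q, 1 < v i (χ q : L))
    (b : Fin m → M) (hdet : (Matrix.of fun k j => σ k (x (b j))).det ≠ 0) : False := by
  -- some value of `x` is nonzero
  have ha : ∃ a, x a ≠ 0 := by
    by_contra hcon
    push Not at hcon
    apply hdet
    apply Matrix.det_eq_zero_of_row_eq_zero (⟨0, hm⟩ : Fin m)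
    intro j
    show σ _ (x (b j)) = 0
    rw [hcon, map_zero]
  have hχi : ∀ a, χ (B.i a) = 1 := by
    intro a
    obtain ⟨a', ha'⟩ := ha
    have h1 := hX (B.i a) (B.i a')
    rw [← B.i_add, hXi, hXi, hXi, map_add] at h1
    have h2 : ((χ (B.i a) : L) - 1) * x a' = 0 := by
      have h3 : x a' = χ (B.i a) * x a' := add_left_cancel h1
      rw [sub_mul, one_mul, ← h3, sub_self]
    apply Units.ext
    rw [Units.val_one]
    exact sub_eq_zero.1 ((mul_eq_zero.1 h2).resolve_right ha')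
  have hXa : ∀ a g, X (B.i a * g) = x a + X g := by
    intro a g
    rw [hX, hXi, hχi, Units.val_one, one_mul]
  obtain ⟨R, C0, hR, hcand⟩ := candidates U hlen B χ x hx v hv hq ha
  obtain ⟨C, W, hW, hbox⟩ := boxB_unif hbb (s + m)
  obtain ⟨C3, hC3, hvol⟩ := vol_bound χ X hX σ W hW
  obtain ⟨κ, hκ, hWκ⟩ := exists_kappa v X W hW
  obtain ⟨κ2, hκ2, hWκ2⟩ := exists_kappa v (fun g => (χ g : L)) W hW
  obtain ⟨C1, hC1⟩ : ∃ C1 : ℕ, C1 = C0 + ∑ j, len U (B.i (b j)) + 1 := ⟨_, rfl⟩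
  obtain ⟨J, hJ⟩ : ∃ J : ℕ, J = s + m := ⟨_, rfl⟩
  obtain ⟨C4, hC4⟩ : ∃ C4 : ℕ, C4 = (NL s).card * (C * C1 ^ J * (J + 1)) := ⟨_, rfl⟩
  -- choice of `n`
  have hRp : 1 < ∏ i, R i := by
    have := Finset.prod_lt_prod_of_nonempty (s := (Finset.univ : Finset (Fin s)))
      (f := fun _ => (1 : ℝ)) (g := R) (fun _ _ => one_pos) (fun i _ => hR i)
      ⟨⟨0, hs⟩, Finset.mem_univ _⟩
    rwa [Finset.prod_const_one] at this
  have hd0 : 0 < ‖(Matrix.of fun k j => σ k (x (b j))).det‖ := norm_pos_iff.2 hdet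
  have ev1 : ∀ᶠ n : ℕ in Filter.atTop, (s * (C4 * n ^ J) ^ 2 : ℕ) < 2 ^ n := by
    have h1 := (tendsto_pow_const_div_const_pow_of_one_lt (2 * J) (one_lt_two (α := ℝ))).const_mul
      ((s : ℝ) * (C4 : ℝ) ^ 2)
    rw [mul_zero] at h1
    filter_upwards [h1.eventually_lt_const (u := 1) one_pos] with n hn
    rw [← mul_div_assoc, div_lt_one (by positivity)] at hn
    have : ((s * (C4 * n ^ J) ^ 2 : ℕ) : ℝ) < ((2 ^ n : ℕ) : ℝ) := by
      push_cast
      calc (s : ℝ) * ((C4 : ℝ) * (n : ℝ) ^ J) ^ 2 = (s : ℝ) * (C4 : ℝ) ^ 2 * (n : ℝ) ^ (2 * J) := by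
            rw [mul_pow, ← pow_mul, mul_comm J 2, mul_assoc]
        _ < 2 ^ n := hn
    exact_mod_cast this
  have ev2 : ∀ᶠ n : ℕ in Filter.atTop, ∀ i : Fin s, ∀ j : Fin m, v i (x (b j)) ≤ R i ^ n := by
    rw [Filter.eventually_all]
    intro i
    rw [Filter.eventually_all]
    intro j
    exact (tendsto_pow_atTop_atTop_of_one_lt (hR i)).eventually_ge_atTop _
  have ev3 : ∀ᶠ n : ℕ in Filter.atTop,
      (2 : ℝ) ^ s * ((C * (C1 * n) ^ J : ℕ) * (C3 * (κ * κ2) ^ s / ∏ i, (R i ^ n))) <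
        ‖(Matrix.of fun k j => σ k (x (b j))).det‖ := by
    have h1 := (tendsto_pow_const_div_const_pow_of_one_lt J hRp).const_mul
      ((2 : ℝ) ^ s * ((C : ℝ) * (C1 : ℝ) ^ J) * (C3 * (κ * κ2) ^ s))
    rw [mul_zero] at h1
    filter_upwards [h1.eventually_lt_const hd0] with n hn
    refine lt_of_eq_of_lt ?_ hn
    rw [Finset.prod_pow]
    push_cast
    rw [mul_pow]
    ring
  obtain ⟨n, h1, h2, h3, h4⟩ := (ev1.and (ev2.and (ev3.and (Filter.eventually_ge_atTop 1)))).exists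
  -- choice of the `c i`
  choose T hT1 hT2 hT3 hT4 using fun i => hcand n h4 i
  have hlenb : ∀ c : Fin s → M, (∀ j, c j ∈ T j) → ∀ K, ∀ g ∈ bsL B b c K, len U g ≤ C1 * n := by
    intro c hc K g hg
    unfold bsL at hg
    rw [List.mem_append] at hg
    rcases hg with hg | hg
    · rw [List.mem_map] at hg
      obtain ⟨i, _, rfl⟩ := hg
      refine (hT2 i _ (hc i)).trans (Nat.mul_le_mul_right _ ?_)
      rw [hC1]; omega
    · rw [List.mem_ofFn] at hg
      obtain ⟨j, rfl⟩ := hg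
      have h5 : len U (B.i (b j)) ≤ ∑ j, len U (B.i (b j)) :=
        Finset.single_le_sum (f := fun j => len U (B.i (b j))) (fun _ _ => Nat.zero_le _)
          (Finset.mem_univ j)
      calc len U (B.i (b j)) ≤ C1 * 1 := by rw [hC1]; omega
        _ ≤ C1 * n := Nat.mul_le_mul_left _ h4
  have hC1n : 1 ≤ C1 * n := by
    have : 1 ≤ C1 := by rw [hC1]; omega
    exact Nat.mul_le_mul this h4
  have hKs : ∀ K : List (Fin s), K.Nodup → K.length ≤ s := by
    intro K hK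
    have := hK.length_le_card
    rwa [Fintype.card_fin] at this
  have hbox' : ∀ c : Fin s → M, (∀ j, c j ∈ T j) → ∀ K : List (Fin s), K.Nodup →
      nrm (box U (bsL B b c K)) ≤ C * (C1 * n) ^ J ∧
      ∀ l ∈ (box U (bsL B b c K)).support, l.length = K.length + m + 1 ∧
        ∀ v ∈ l, ∀ w ∈ l, v⁻¹ * w ∈ W := by
    intro c hc K hK
    obtain ⟨h5, h6⟩ := hbox (C1 * n) (bsL B b c K) hC1n
      (by rw [bsL_length]; have := hKs K hK; omega) (hlenb c hc K)
    refine ⟨by rw [hJ]; exact h5, fun l hl => ⟨?_, (h6 l hl).2⟩⟩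
    rw [(h6 l hl).1, bsL_length]
  have hVV : ∀ c : Fin s → M, (∀ j, c j ∈ T j) → ∀ i, (VV U B b c i).card ≤ C4 * n ^ J := by
    intro c hc i
    unfold VV
    refine (Finset.card_biUnion_le).trans ?_
    calc ∑ K ∈ (NL s).filter (fun K => i ∉ K), (vts (box U (bsL B b c K))).card
        ≤ ∑ K ∈ (NL s).filter (fun K => i ∉ K), C * (C1 * n) ^ J * (J + 1) := by
          apply Finset.sum_le_sum
          intro K hK
          rw [Finset.mem_filter, mem_NL] at hK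
          obtain ⟨h5, h6⟩ := hbox' c hc K hK.1
          refine (vts_card (k := J + 1) (fun l hl => ?_)).trans (Nat.mul_le_mul_right _ h5)
          rw [(h6 l hl).1]
          have := hKs K hK.1
          omega
      _ = ((NL s).filter (fun K => i ∉ K)).card * (C * (C1 * n) ^ J * (J + 1)) := by
          rw [Finset.sum_const, smul_eq_mul]
      _ ≤ (NL s).card * (C * (C1 * n) ^ J * (J + 1)) :=
          Nat.mul_le_mul_right _ (Finset.card_filter_le _ _)
      _ = C4 * n ^ J := by rw [hC4, mul_pow]; ring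
  obtain ⟨c, hc, hgood⟩ := selection T (2 ^ n) ((C4 * n ^ J) ^ 2) hT1
    (fun i c => badT U B x X v b (R i ^ n) c i)
    (fun i c hc => (bad_count U B x X v b hv (R i ^ n) (T i) c i (hT4 i)).trans
      (Nat.pow_le_pow_left (hVV c hc i) 2)) h1
  -- the sum of the terms
  have hmain := elim_vol U hbb hbp hcup B χ x X hX hχi hXa hXi σ v hm hv b κ (fun i => R i ^ n) c
    (fun i j => h2 i j) (fun i j hij => hT3 j (c j) (hc j) i hij) hgood
  have hbound : ∀ p ∈ terms (ff U B χ X v b κ (fun i => R i ^ n) c)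
      (cupd (List.ofFn fun k => fun g => σ k (X g))) (css s),
      ‖pa p.2 (box U (bsL B b c p.1))‖ ≤
        (C * (C1 * n) ^ J : ℕ) * (C3 * (κ * κ2) ^ s / ∏ i, (R i ^ n)) := by
    intro p hp
    have hsub := ((terms_props (ff U B χ X v b κ (fun i => R i ^ n) c) (css s) (css_nodup s)
      (ff_01 U B χ X v b κ _ c) (cupd (List.ofFn fun k => fun g => σ k (X g)))).2 p hp).1
    have hnd : p.1.Nodup := hsub.nodup (css_nodup s)
    obtain ⟨h5, h6⟩ := hbox' c hc p.1 hnd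
    refine (term_bound U B χ X hX σ v hv hprod b κ κ2 C3 hκ hκ2 hC3 (fun i => R i ^ n)
      (fun i => pow_pos (one_pos.trans (hR i)) n) c W hWκ hWκ2 hvol p hp h6).trans ?_
    apply mul_le_mul_of_nonneg_right
    · exact_mod_cast h5
    · have : 0 < ∏ i, (R i ^ n) := Finset.prod_pos (fun i _ => pow_pos (one_pos.trans (hR i)) n)
      positivity
  have hlast : ‖(Matrix.of fun k j => σ k (x (b j))).det‖ ≤
      (2 : ℝ) ^ s * ((C * (C1 * n) ^ J : ℕ) * (C3 * (κ * κ2) ^ s / ∏ i, (R i ^ n))) := by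
    rw [← hmain]
    have hl : (terms (ff U B χ X v b κ (fun i => R i ^ n) c)
      (cupd (List.ofFn fun k => fun g => σ k (X g))) (css s)).length = 2 ^ s := by
      rw [(terms_props (ff U B χ X v b κ (fun i => R i ^ n) c) (css s) (css_nodup s)
        (ff_01 U B χ X v b κ _ c) (cupd (List.ofFn fun k => fun g => σ k (X g)))).1, css_length]
    have key : ∀ (l : List (List (Fin s) × (List G → ℂ))) (bd : ℝ),
        (∀ p ∈ l, ‖pa p.2 (box U (bsL B b c p.1))‖ ≤ bd) →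
        ‖(l.map (fun p => pa p.2 (box U (bsL B b c p.1)))).sum‖ ≤ l.length * bd := by
      intro l bd
      induction l with
      | nil => intro _; simp
      | cons p l ih =>
        intro h
        rw [List.map_cons, List.sum_cons, List.length_cons]
        refine (norm_add_le _ _).trans ?_
        have e1 := h p (by simp)
        have e2 := ih (fun q hq => h q (List.mem_cons_of_mem _ hq))
        push_cast
        linarith
    have := key _ _ hbound
    rw [hl] at this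
    push_cast at this ⊢
    exact this
  exact absurd h3 (not_lt.2 hlast)

end

end Pool.Agent.TH109.M
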