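import Mathlib
import Pool.Agent.TH109.M.Base

set_option autoImplicit false

open scoped Classical

namespace Pool.Agent.TH109.M

open Pool.Agent.Helper943.LM (UA wpow)

noncomputable section

variable {G : Type} [Group G]

theorem st_path (U : UA G) (w : List U.A) {t t' : ℕ} (h : t ≤ t') : Cn U (st U w t) (st U w t') := by
  refine ⟨(w.take t').drop t, ?_⟩
  unfold st
  rw [← UA.run_append]
  congr 1
  have : w.take t = (w.take t').take t := by rw [List.take_take, min_eq_left h]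
  rw [this, List.take_append_drop]

theorem Cn_trans (U : UA G) {a b c : U.S} (h : Cn U a b) (h' : Cn U b c) : Cn U a c := by
  obtain ⟨z, rfl⟩ := h
  obtain ⟨z', rfl⟩ := h'
  exact ⟨z ++ z', by rw [UA.run_append]⟩

/-- values at distinct stays are separated in time -/
theorem sep (U : UA G) (ℓ : ℕ) (hL : LoopS U ℓ) (w : List U.A) (hw : w ∈ U.L) {K t t' : ℕ} {e e' : G}
    (h : Sg U ℓ K w e t) (h' : EV U ℓ w t' = e') (htt : t < t') (hne : e ≠ e') : t + K < t' := by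
  by_contra hcon
  rw [not_lt] at hcon
  obtain ⟨h1, h2, h3, h4⟩ := h
  have h5 : Cn U (st U w t') (st U w t) := Cn_trans U (st_path U w hcon) h3
  have h6 := hL.2.2.2.1 w hw t t' htt.le h2 h5
  apply hne
  rw [← h4, h6, h']

/-- one step of the pair lemma for lists -/
theorem step_list (U : UA G) (ℓ : ℕ) (hL : LoopS U ℓ) (K K' : ℕ) (w w' : List U.A) (hw : w ∈ U.L)
    (hstep : ∀ e t, Sg U ℓ K w e t → ∃ t', t ≤ t' ∧ t' ≤ t + K ∧ Sg U ℓ K' w' e t') :
    ∀ (ts : List ℕ) (es : List G), es.Nodup → ts.Pairwise (· < ·) →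
      List.Forall₂ (fun t e => Sg U ℓ K w e t) ts es →
      ∃ ts' : List ℕ, ts'.Pairwise (· < ·) ∧ List.Forall₂ (fun t e => Sg U ℓ K' w' e t) ts' es ∧
        List.Forall₂ (fun t t' => t ≤ t' ∧ t' ≤ t + K) ts ts' := by
  intro ts es hnd hp hf
  induction hf with
  | nil => exact ⟨[], List.Pairwise.nil, List.Forall₂.nil, List.Forall₂.nil⟩
  | @cons t e ts es h1 h2 ih =>
    rw [List.nodup_cons] at hnd
    rw [List.pairwise_cons] at hp
    obtain ⟨ts', h3, h4, h5⟩ := ih hnd.2 hp.2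
    obtain ⟨t', h6, h7, h8⟩ := hstep e t h1
    refine ⟨t' :: ts', ?_, List.Forall₂.cons h8 h4, List.Forall₂.cons ⟨h6, h7⟩ h5⟩
    rw [List.pairwise_cons]
    refine ⟨?_, h3⟩
    intro t2' ht2'
    -- find the corresponding `t2`
    have key : ∀ (ts : List ℕ) (es : List G) (ts' : List ℕ),
        List.Forall₂ (fun t e => Sg U ℓ K w e t) ts es →
        List.Forall₂ (fun t t' => t ≤ t' ∧ t' ≤ t + K) ts ts' → t2' ∈ ts' →
        ∃ t2 ∈ ts, ∃ e2 ∈ es, Sg U ℓ K w e2 t2 ∧ t2 ≤ t2' := by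
      intro ts es ts' ha hb hc
      induction hb generalizing es with
      | nil => simp at hc
      | @cons x y xs ys hxy hxs ihx =>
        cases ha with
        | @cons _ e3 _ es3 h9 h10 =>
          rcases List.mem_cons.1 hc with h11 | h11
          · subst h11
            exact ⟨x, by simp, e3, by simp, h9, hxy.1⟩
          · obtain ⟨t2, ht2, e2, he2, h12, h13⟩ := ihx es3 h10 h11
            exact ⟨t2, List.mem_cons_of_mem _ ht2, e2, List.mem_cons_of_mem _ he2, h12, h13⟩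
    obtain ⟨t2, ht2, e2, he2, h9, h10⟩ := key ts es ts' h2 h5 ht2'
    have h11 : t < t2 := hp.1 t2 ht2
    have h12 : e ≠ e2 := by
      rintro rfl
      exact hnd.1 he2
    have h13 := sep U ℓ hL w hw h1 h9.2.2.2 h11 h12
    omega

/-- iterated pair lemma -/
theorem iter_list (U : UA G) (ℓ : ℕ) (hL : LoopS U ℓ) (K2 : ℕ)
    (hpair : ∀ (a : U.A) (g e : G) (K t : ℕ), K2 ≤ K → Sg U ℓ K (nf U g) e t →
      ∃ t', t ≤ t' ∧ t' ≤ t + K ∧ Sg U ℓ (K - K2) (nf U (g * U.mu a)) e t')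
    (es : List G) (hes : es.Nodup) :
    ∀ (u : List U.A) (K : ℕ) (g : G) (ts : List ℕ), u.length * K2 ≤ K → ts.Pairwise (· < ·) →
      List.Forall₂ (fun t e => Sg U ℓ K (nf U g) e t) ts es →
      ∃ ts' : List ℕ, ts'.Pairwise (· < ·) ∧
        List.Forall₂ (fun t e => Sg U ℓ (K - u.length * K2) (nf U (g * U.ev u)) e t) ts' es := by
  intro u
  induction u with
  | nil =>
    intro K g ts _ hp hf
    refine ⟨ts, hp, ?_⟩
    rw [UA.ev_nil, mul_one, List.length_nil, Nat.zero_mul, Nat.sub_zero]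
    exact hf
  | cons a u ih =>
    intro K g ts hK hp hf
    rw [List.length_cons, Nat.add_mul, Nat.one_mul] at hK
    obtain ⟨ts1, h1, h2, _⟩ := step_list U ℓ hL K (K - K2) (nf U g) (nf U (g * U.mu a))
      (nf_mem U g) (fun e t h => hpair a g e K t (by omega) h) ts es hes hp hf
    obtain ⟨ts2, h3, h4⟩ := ih (K - K2) (g * U.mu a) ts1 (by omega) h1 h2
    refine ⟨ts2, h3, ?_⟩
    have e1 : g * U.ev (a :: u) = g * U.mu a * U.ev u := by
      have : U.ev (a :: u) = U.mu a * U.ev u := by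
        unfold UA.ev
        rw [List.map_cons, List.prod_cons]
      rw [this, mul_assoc]
    have e2 : K - (a :: u).length * K2 = K - K2 - u.length * K2 := by
      rw [List.length_cons, Nat.add_mul, Nat.one_mul]; omega
    rw [e1, e2]
    exact h4

/-- the number of distinct values along a word is at most the number of states -/
theorem vals_le (U : UA G) (ℓ : ℕ) (hL : LoopS U ℓ) (w : List U.A) (hw : w ∈ U.L) (es : List G)
    (hes : es.Nodup) (h : ∀ e ∈ es, ∃ t ≤ w.length, Cy U (st U w t) ∧ EV U ℓ w t = e) :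
    es.length ≤ Nat.card U.S := by
  haveI := U.finS
  haveI := Fintype.ofFinite U.S
  choose! τ h1 h2 h3 using h
  have hinj : ∀ e ∈ es, ∀ e' ∈ es, st U w (τ e) = st U w (τ e') → e = e' := by
    have key : ∀ e ∈ es, ∀ e' ∈ es, st U w (τ e) = st U w (τ e') → τ e ≤ τ e' → e = e' := by
      intro e he e' he' hs ht
      have h4 := hL.2.2.2.1 w hw (τ e) (τ e') ht (h2 e he) (by rw [hs]; exact ⟨[], rfl⟩)
      rw [← h3 e he, h4, h3 e' he']
    intro e he e' he' hs
    rcases le_total (τ e) (τ e') with h | h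
    · exact key e he e' he' hs h
    · exact (key e' he' e he hs.symm h).symm
  rw [Nat.card_eq_fintype_card]
  have h4 : (es.map (fun e => st U w (τ e))).Nodup := by
    rw [List.nodup_map_iff_inj_on hes]
    intro e he e' he' hs
    exact hinj e he e' he' hs
  have := h4.length_le_card
  rwa [List.length_map] at this

/-- Theorem C -/
theorem star_va' (U : UA G) (hU : Star U) (hlen : LenF U) :
    ∃ H : Subgroup G, H.FiniteIndex ∧ ∀ x ∈ H, ∀ y ∈ H, x * y = y * x := by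
  obtain ⟨⟨C2, hC2⟩, -, hfin⟩ := hlen
  obtain ⟨ℓ0, hℓ0, hpairL⟩ := pairL U hU
  obtain ⟨ℓ, hℓe⟩ : ∃ ℓ : ℕ, ℓ = ℓ0 * (Nat.card U.S).factorial := ⟨_, rfl⟩
  have hℓ : 0 < ℓ := by
    rw [hℓe]
    exact Nat.mul_pos hℓ0 (Nat.factorial_pos _)
  have hL : LoopS U ℓ := by
    apply loopS U hU ℓ hℓ
    intro k hk1 hk2
    rw [hℓe]
    exact Dvd.dvd.mul_left (Nat.dvd_factorial hk1 hk2) _
  obtain ⟨K2, hpair⟩ := hpairL ℓ (by rw [hℓe]; exact Nat.dvd_mul_right _ _) hL
  let P : ℕ → Prop := fun d => ∃ w ∈ U.L, ∃ es : List G, es.Nodup ∧ es.length = d ∧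
    ∀ e ∈ es, ∃ t ≤ w.length, Cy U (st U w t) ∧ EV U ℓ w t = e
  have hP0 : P 0 := ⟨nf U 1, nf_mem U 1, [], List.nodup_nil, rfl, by simp⟩
  obtain ⟨D, hDe⟩ : ∃ D, D = Nat.findGreatest P (Nat.card U.S) := ⟨_, rfl⟩
  have hPD : P D := by
    rw [hDe]
    exact Nat.findGreatest_spec (Nat.zero_le _) hP0
  have hD : ∀ w ∈ U.L, ∀ es : List G, es.Nodup →
      (∀ e ∈ es, ∃ t ≤ w.length, Cy U (st U w t) ∧ EV U ℓ w t = e) → es.length ≤ D := by
    intro w hw es hes h
    rw [hDe]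
    exact Nat.le_findGreatest (vals_le U ℓ hL w hw es hes h) ⟨w, hw, es, hes, rfl, h⟩
  obtain ⟨T, hT, hdec⟩ := decomp U ℓ hL hU D hD
  -- the word with `D` values
  obtain ⟨w, hw, es, hes, hesD, h1⟩ := hPD
  choose! τ h2 h3 h4 using h1
  have hτinj : ∀ e ∈ es, ∀ e' ∈ es, τ e = τ e' → e = e' := by
    intro e he e' he' h
    rw [← h4 e he, h, h4 e' he']
  obtain ⟨ts, hts⟩ : ∃ ts : List ℕ, ts = ((es.map τ).toFinset).sort (· ≤ ·) := ⟨_, rfl⟩
  have hmem : ∀ t ∈ ts, ∃ e ∈ es, τ e = t := by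
    intro t ht
    rw [hts, Finset.mem_sort, List.mem_toFinset, List.mem_map] at ht
    exact ht
  have htslen : ts.length = D := by
    rw [hts, Finset.length_sort, List.toFinset_card_of_nodup, List.length_map, hesD]
    rw [List.nodup_map_iff_inj_on hes]
    exact hτinj
  have htsp : ts.Pairwise (· < ·) := by
    rw [hts]
    exact (Finset.sortedLT_sort _).pairwise
  obtain ⟨C1', hC1'⟩ := pump U ℓ hL hfin w hw D ts htslen htsp
    (by
      intro t ht
      obtain ⟨e, he, rfl⟩ := hmem t ht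
      exact ⟨h2 e he, h3 e he⟩)
    (by
      refine htsp.imp_of_mem ?_
      intro t t' ht ht' hlt hcn
      obtain ⟨e, he, rfl⟩ := hmem t ht
      obtain ⟨e', he', rfl⟩ := hmem t' ht'
      have h5 := hL.2.2.2.1 w hw (τ e) (τ e') hlt.le (h3 e he) hcn
      rw [h4 e he, h4 e' he'] at h5
      rw [h5] at hlt
      exact lt_irrefl _ hlt)
  -- enlarge the constant
  obtain ⟨C1, hC1p, hC1⟩ : ∃ C1 : ℕ, 1 ≤ C1 ∧ ∀ n : ℕ, 1 ≤ n →
      n ^ D ≤ {g : G | len U g ≤ C1 * n}.ncard ∧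
      ∃ w' ∈ U.L, w'.length ≤ C1 * n ∧ ∃ (ts' : List ℕ) (es' : List G), es'.length = D ∧
        ts'.Pairwise (· < ·) ∧ es'.Nodup ∧
        List.Forall₂ (fun t e => Sg U ℓ (n * ℓ) w' e t) ts' es' := by
    refine ⟨C1' + 1, by omega, fun n hn => ?_⟩
    obtain ⟨h5, w', hw', h6, h7⟩ := hC1' n hn
    have e1 : C1' * n ≤ (C1' + 1) * n := Nat.mul_le_mul_right _ (by omega)
    refine ⟨h5.trans (Set.ncard_le_ncard ?_ (hfin _)), w', hw', h6.trans e1, h7⟩
    intro g hg
    exact le_trans hg e1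
  obtain ⟨C, hCe⟩ : ∃ C : ℕ, C = C1 * (C1 * K2 + 1) + C2 * C1 + 1 := ⟨_, rfl⟩
  obtain ⟨N, hN⟩ := countG D T hT C
  apply limitL N
  intro S
  -- choice of `n`
  obtain ⟨n, hn1, hnN, hnS⟩ : ∃ n : ℕ, 1 ≤ n ∧ N ≤ n ∧ ∀ g ∈ S, len U g ≤ C1 * n := by
    refine ⟨1 + N + ∑ g ∈ S, len U g, by omega, by omega, fun g hg => ?_⟩
    have h5 : len U g ≤ ∑ g ∈ S, len U g :=
      Finset.single_le_sum (f := fun g => len U g) (fun _ _ => Nat.zero_le _) hg
    calc len U g ≤ 1 * (1 + N + ∑ g ∈ S, len U g) := by omega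
      _ ≤ C1 * (1 + N + ∑ g ∈ S, len U g) := Nat.mul_le_mul_right _ hC1p
  obtain ⟨hcard, -⟩ := hC1 n hn1
  obtain ⟨-, w', hw', hw'len, ts', es', hes'D, hts', hes', hf⟩ := hC1 ((C1 * K2 + 1) * n)
    (Nat.mul_pos (Nat.succ_pos _) hn1)
  obtain ⟨g, hg⟩ : ∃ g, g = U.ev w' := ⟨_, rfl⟩
  have hnfg : nf U g = w' := by rw [hg]; exact nf_eq U hw'
  let Bh : Finset G := (hfin (C1 * n)).toFinset
  let Bn : Finset G := Bh.image (fun h => g * h)
  have hBn : n ^ D ≤ C * Bn.card := by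
    have h5 : Bn.card = {g : G | len U g ≤ C1 * n}.ncard := by
      show (Bh.image (fun h => g * h)).card = _
      rw [Finset.card_image_of_injective _ (mul_right_injective g),
        Set.ncard_eq_toFinset_card _ (hfin (C1 * n))]
    rw [h5]
    calc n ^ D ≤ 1 * {g : G | len U g ≤ C1 * n}.ncard := by rw [one_mul]; exact hcard
      _ ≤ C * _ := Nat.mul_le_mul_right _ (by rw [hCe]; omega)
  obtain ⟨E, hE, F, hF, hEF⟩ := hN n hnN Bn es' hBn (by
    intro h' hh'
    obtain ⟨h, hh, rfl⟩ := Finset.mem_image.1 hh'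
    have hh2 : len U h ≤ C1 * n := by
      have : h ∈ (hfin (C1 * n)).toFinset := hh
      rwa [Set.Finite.mem_toFinset] at this
    have hK : (nf U h).length * K2 ≤ (C1 * K2 + 1) * n * ℓ := by
      calc (nf U h).length * K2 ≤ C1 * n * K2 := Nat.mul_le_mul_right _ hh2
        _ = (C1 * K2) * n * 1 := by ring
        _ ≤ (C1 * K2 + 1) * n * ℓ := Nat.mul_le_mul (Nat.mul_le_mul_right _ (by omega)) hℓ
    obtain ⟨ts2, h5, h6⟩ := iter_list U ℓ hL K2 hpair es' hes' (nf U h) _ g ts' hK hts'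
      (by rw [hnfg]; exact hf)
    rw [nf_ev] at h6
    obtain ⟨τ', hτ', m', hm1, hm2, hm3, hm4⟩ := hdec (nf U (g * h)) (nf_mem U _) es' ts2 hes'D hes'
      (h5.imp (fun h => h.le)) (h6.imp (fun t e h => ⟨by have := h.1; omega, h.2.1, h.2.2.2⟩))
    refine ⟨τ', hτ', m', hm1, ?_, ?_, hm4⟩
    · intro k hk
      refine (hm2 k hk).trans ?_
      have h7 := hC2 g h
      have h8 : len U g ≤ C1 * ((C1 * K2 + 1) * n) := by
        unfold len
        rw [hnfg]
        exact hw'len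
      calc (nf U (g * h)).length ≤ len U g + C2 * len U h := h7
        _ ≤ C1 * ((C1 * K2 + 1) * n) + C2 * (C1 * n) := Nat.add_le_add h8 (Nat.mul_le_mul_left _ hh2)
        _ = (C1 * (C1 * K2 + 1) + C2 * C1) * n := by ring
        _ ≤ C * n := Nat.mul_le_mul_right _ (by rw [hCe]; omega)
    · rw [← hm3, nf_ev])
  refine ⟨E.map (MulAut.conj g⁻¹).toMonoidHom, ?_, F.image (fun f => g⁻¹ * f),
    Finset.card_image_le.trans hF, ?_⟩
  · rintro _ ⟨a, ha, rfl⟩ _ ⟨b, hb, rfl⟩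
    rw [← map_mul, ← map_mul, hE a ha b hb]
  · intro s hs
    have h5 : g * s ∈ Bn := by
      apply Finset.mem_image_of_mem
      show s ∈ (hfin (C1 * n)).toFinset
      rw [Set.Finite.mem_toFinset]
      exact hnS s hs
    obtain ⟨e, he, f, hf, hef⟩ := hEF _ h5
    refine ⟨g⁻¹ * e * g, ⟨e, he, ?_⟩, g⁻¹ * f, Finset.mem_image_of_mem _ hf, ?_⟩
    · show (MulAut.conj g⁻¹) e = _
      rw [MulAut.conj_apply, inv_inv]
    · have : s = g⁻¹ * (g * s) := by group
      rw [this, hef]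
      group

end

end Pool.Agent.TH109.M
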