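import Mathlib
import Pool.Agent.TH109.M.Defs
import Pool.Agent.TH111.J629

set_option autoImplicit false

open scoped Classical

namespace Pool.Agent.TH109.M

open Pool.Agent.Helper943.LM (UA wpow)

noncomputable section

variable {G : Type} [Group G]

theorem comm_of_derived (h : derivedSeries G 2 = ⊥) (a b : commutator G) : a * b = b * a := by
  have h1 : ⁅commutator G, commutator G⁆ = ⊥ := by
    rw [← h]
    show _ = derivedSeries G (1 + 1)
    rw [derivedSeries_succ, derivedSeries_one]
  have h2 := (Subgroup.commutator_eq_bot_iff_le_centralizer.1 h1) a.2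
  rw [Subgroup.mem_centralizer_iff] at h2
  exact Subtype.ext (h2 b.1 b.2).symm

/-- the commutator subgroup as a commutative group -/
def CG (G : Type) [Group G] (_ : derivedSeries G 2 = ⊥) : Type := commutator G

instance (h : derivedSeries G 2 = ⊥) : CommGroup (CG G h) :=
  { (inferInstance : Group (commutator G)) with
    mul_comm := comm_of_derived h }

theorem exists_MB (h : derivedSeries G 2 = ⊥) :
    ∃ (M : Type) (_ : AddCommGroup M), Nonempty (MB G M) := by
  refine ⟨Additive (CG G h), inferInstance, ⟨?_⟩⟩
  let N : Subgroup G := commutator G
  haveI : N.Normal := inferInstanceAs (commutator G).Normal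
  let cj : G → N → N := fun g a => ⟨g * a.1 * g⁻¹, Subgroup.Normal.conj_mem inferInstance a.1 a.2 g⟩
  refine
    { i := fun a => ((a.toMul : CG G h) : commutator G).1
      i_add := fun a b => rfl
      i_inj := fun a b hab => by
        apply Additive.toMul.injective
        exact Subtype.ext hab
      ρ := 
        { toFun := fun g =>
            { toFun := fun a => Additive.ofMul (cj g a.toMul : CG G h)
              map_zero' := by
                apply Additive.toMul.injective
                apply Subtype.ext
                show g * 1 * g⁻¹ = 1
                group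
              map_add' := fun a b => by
                apply Additive.toMul.injective
                apply Subtype.ext
                show g * ((a.toMul : commutator G).1 * (b.toMul : commutator G).1) * g⁻¹ =
                  (g * (a.toMul : commutator G).1 * g⁻¹) * (g * (b.toMul : commutator G).1 * g⁻¹)
                group }
          map_one' := by
            apply AddMonoidHom.ext
            intro a
            apply Additive.toMul.injective
            apply Subtype.ext
            show 1 * (a.toMul : commutator G).1 * 1⁻¹ = (a.toMul : commutator G).1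
            group
          map_mul' := fun g g' => by
            apply AddMonoidHom.ext
            intro a
            apply Additive.toMul.injective
            apply Subtype.ext
            show (g * g') * (a.toMul : commutator G).1 * (g * g')⁻¹ =
              g * (g' * (a.toMul : commutator G).1 * g'⁻¹) * g⁻¹
            group }
      conj := fun g a => rfl
      comm := fun g g' => ?_
      gen := ?_ }
  · refine ⟨Additive.ofMul (⟨g * g' * g⁻¹ * g'⁻¹, ?_⟩ : commutator G), rfl⟩
    rw [← commutatorElement_def]
    exact Subgroup.commutator_mem_commutator (Subgroup.mem_top g) (Subgroup.mem_top g')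
  · intro K hK
    rw [eq_top_iff]
    intro a _
    have h1 : ∀ x : G, ∀ hx : x ∈ commutator G,
        (Additive.ofMul (⟨x, hx⟩ : commutator G) : Additive (CG G h)) ∈ K := by
      intro x hx
      have hx' := hx
      rw [commutator_def, Subgroup.commutator_def] at hx'
      induction hx' using Subgroup.closure_induction with
      | mem y hy =>
        apply hK
        obtain ⟨g1, _, g2, _, rfl⟩ := hy
        exact ⟨g1, g2, by rw [← commutatorElement_def]; rfl⟩
      | one => exact K.zero_mem
      | mul y z hy hz ihy ihz =>
        have hy' : y ∈ commutator G := by rw [commutator_def, Subgroup.commutator_def]; exact hy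
        have hz' : z ∈ commutator G := by rw [commutator_def, Subgroup.commutator_def]; exact hz
        exact K.add_mem (ihy hy') (ihz hz')
      | inv y hy ihy =>
        have hy' : y ∈ commutator G := by rw [commutator_def, Subgroup.commutator_def]; exact hy
        exact K.neg_mem (ihy hy')
    exact h1 _ (a.toMul : commutator G).2

/-- from the fellow traveller form of the statement -/
theorem ua_of_aut (h : ∃ (n : ℕ) (s : Fin n → G) (σ : Type) (_ : Fintype σ) (M : DFA (Fin n) σ) (k : ℕ),
      (∀ g : G, ∃ w ∈ M.accepts, (w.map s).prod = g) ∧
      ∀ u ∈ M.accepts, ∀ v ∈ M.accepts, ∀ a : G, (a = 1 ∨ a ∈ Set.range s) →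
        (u.map s).prod * a = (v.map s).prod →
        ∀ t : ℕ, ∃ l : List G, l.length ≤ k ∧
          (∀ x ∈ l, x ∈ Set.range s ∨ x⁻¹ ∈ Set.range s) ∧
          ((u.take t).map s).prod * l.prod = ((v.take t).map s).prod) : Nonempty (UA G) := by
  obtain ⟨n, s, σ, _, M, k, hs, hK⟩ := h
  apply Pool.Agent.Helper943.LM.uaOfAut
  refine ⟨Fin n, inferInstance, s, σ, inferInstance, M, hs, fun x => ?_⟩
  let S : Set G := {x | x ∈ Set.range s ∨ x⁻¹ ∈ Set.range s}
  have hS : S.Finite := by
    have h2 : ((fun x : G => x⁻¹) ⁻¹' Set.range s).Finite :=
      (Set.finite_range s).preimage (inv_injective.injOn)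
    exact ((Set.finite_range s).union h2).subset (fun x hx => hx)
  have hD : ((fun l : List G => l.prod) '' {l | l.length ≤ k ∧ ∀ x ∈ l, x ∈ S}).Finite := by
    apply Set.Finite.image
    haveI : Finite S := hS.to_subtype
    apply ((List.finite_length_le S k).image (fun l => l.map Subtype.val)).subset
    rintro l ⟨h1, h2⟩
    refine ⟨l.attach.map (fun x => ⟨x.1, h2 x.1 x.2⟩), ?_, ?_⟩
    · simpa using h1
    · simp [Function.comp_def]
  refine Pool.Agent.Helper943.LM.autoLemma s M _ _ hD ?_
  intro u v hu hv he t
  have h1 : ((x.map s).getD 1 = 1 ∨ (x.map s).getD 1 ∈ Set.range s) := by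
    cases x with
    | none => exact Or.inl rfl
    | some i => exact Or.inr ⟨i, rfl⟩
  obtain ⟨l, hl, hl2, hl3⟩ := hK u hu v hv _ h1 he t
  refine ⟨l, ⟨hl, hl2⟩, ?_⟩
  show l.prod = _
  rw [← hl3, inv_mul_cancel_left]

end

end Pool.Agent.TH109.M
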