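import Mathlib
import Pool.Agent.TH109.M.Base
import Pool.Agent.TH109.M.B1d
import Pool.Agent.TH109.M.CG
import Pool.Agent.TH109.M.MBof

set_option autoImplicit false

open scoped Classical

namespace Pool.Agent.TH109.M

open Pool.Agent.Helper943.LM (UA wpow)

noncomputable section

variable {G : Type} [Group G]

/-- the crossed homomorphism extending `x` -/
theorem exists_X {M : Type} [AddCommGroup M] (B : MB G M) {L : Type} [Field L]
    (χ : G →* Lˣ) (x : M →+ L) (hx : ∀ g a, x (B.ρ g a) = (χ g : L) * x a) (g0 : G)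
    (h0 : χ g0 ≠ 1) :
    ∃ X : G → L, (∀ g h, X (g * h) = X g + χ g * X h) ∧ ∀ a, X (B.i a) = x a := by
  choose c hc using fun g => B.comm g g0
  have hl : (1 - (χ g0 : L)) ≠ 0 := by
    intro h
    apply h0
    apply Units.ext
    rw [Units.val_one]
    exact (sub_eq_zero.1 h).symm
  refine ⟨fun g => (1 - (χ g0 : L))⁻¹ * x (c g), ?_, ?_⟩
  · intro g h
    have h1 : c (g * h) = B.ρ g (c h) + c g := by
      apply B.i_inj
      rw [B.i_add, ← B.conj, hc, hc, hc]
      group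
    show (1 - (χ g0 : L))⁻¹ * x (c (g * h)) = (1 - (χ g0 : L))⁻¹ * x (c g) + χ g * ((1 - (χ g0 : L))⁻¹ * x (c h))
    rw [h1, map_add, hx]
    ring
  · intro a
    have h1 : c (B.i a) = a - B.ρ g0 a := by
      rw [eq_sub_iff_add_eq]
      apply B.i_inj
      rw [B.i_add, ← B.conj, hc]
      group
    show (1 - (χ g0 : L))⁻¹ * x (c (B.i a)) = x a
    rw [h1, map_sub, hx]
    field_simp

theorem no_big {M : Type} [AddCommGroup M] (U : UA G) (hlen : LenF U) (hbb : BoxB U)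
    (hbp : BoxP U ℂ) (hcup : CupB U ℂ) (B : MB G M) (hfd : FinDimS B) (g0 : G)
    (hg : ∀ N : ℕ, 0 < N → ∀ k : ℕ, ∃ a : M, ∀ n : ℕ, 0 < n →
      n • (((B.ρ g0) ^ N - 1) ^ k) a ≠ 0) : False := by
  obtain ⟨L, _, _, χ, x, hx, hsp, hχ⟩ := exists_char B hfd g0 hg
  haveI := U.finA
  have hS : Subgroup.closure (((Set.finite_range U.mu).toFinset : Finset G) : Set G) = ⊤ := by
    rw [Set.Finite.coe_toFinset]
    exact closure_mu U
  obtain ⟨m, s, σ, v, hm, hv, hprod, hq, hs0, hT⟩ := places _ hS χ g0 hχ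
  obtain ⟨b', hb', hdet⟩ := hT _ hsp
  choose b hb using hb'
  have hdet' : (Matrix.of fun k j => σ k (x (b j))).det ≠ 0 := by
    simpa only [hb] using hdet
  obtain ⟨X, hX, hXi⟩ := exists_X B χ x hx g0 (by simpa using hχ 1 one_pos)
  rcases Nat.eq_zero_or_pos s with h0 | h0
  · subst h0
    obtain ⟨k0, hk0⟩ := hs0 rfl
    have hprod' : ∀ g, (∏ k, ‖σ k (χ g : L)‖) = 1 := by
      intro g
      simpa using hprod g
    exact B0 U hlen hbb hcup (fun n X b => detA_ofFn n X b) B χ x hx X hX hXi σ hprod' b hdet' g0 k0 hk0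
  · exact B1' U hlen hbb hbp hcup B χ x hx X hX hXi σ v hm h0 hv hprod hq b hdet'

theorem rho_inj {M : Type} [AddCommGroup M] (B : MB G M) (g : G) : Function.Injective (B.ρ g) := by
  intro a b h
  have h1 : ∀ a, B.ρ g⁻¹ (B.ρ g a) = a := by
    intro a
    have : (B.ρ g⁻¹ * B.ρ g) a = a := by
      rw [← map_mul, inv_mul_cancel, map_one]
      rfl
    exact this
  rw [← h1 a, ← h1 b, h]

theorem qu {M : Type} [AddCommGroup M] (U : UA G) (hlen : LenF U) (hbb : BoxB U)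
    (hbp : BoxP U ℂ) (hcup : CupB U ℂ) (B : MB G M) (hfd : FinDimS B)
    (hT : {a : M | ∃ n : ℕ, 0 < n ∧ n • a = 0}.Finite) (g : G) :
    ∃ N : ℕ, 0 < N ∧ ∃ k : ℕ, ∀ a, (((B.ρ g) ^ N - 1) ^ k) a = 0 := by
  by_contra hcon
  push Not at hcon
  apply no_big U hlen hbb hbp hcup B hfd g
  intro N hN k
  by_contra hcon2
  push Not at hcon2
  -- image of the power is torsion
  let T : Set M := {a : M | ∃ n : ℕ, 0 < n ∧ n • a = 0}
  have hTT : ∀ (φ : AddMonoid.End M) (a : M), a ∈ T → φ a ∈ T := by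
    rintro φ a ⟨n, hn, h⟩
    exact ⟨n, hn, by rw [← map_nsmul, h, map_zero]⟩
  haveI : Finite T := hT.to_subtype
  let f : T → T := fun a => ⟨B.ρ g a.1, hTT _ _ a.2⟩
  have hf : Function.Injective f := by
    intro a b hab
    apply Subtype.ext
    exact rho_inj B g (congrArg Subtype.val hab)
  let p : Equiv.Perm T := Equiv.ofBijective f (Finite.injective_iff_bijective.1 hf)
  obtain ⟨j, hj, hj2⟩ : ∃ j : ℕ, 0 < j ∧ p ^ j = 1 := ⟨orderOf p, orderOf_pos p, pow_orderOf_eq_one p⟩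
  have hpow : ∀ (i : ℕ) (a : T), ((p ^ i) a).1 = ((B.ρ g) ^ i) a.1 := by
    intro i
    induction i with
    | zero => intro a; rfl
    | succ i ih =>
      intro a
      rw [pow_succ, pow_succ]
      show ((p ^ i) (p a)).1 = ((B.ρ g) ^ i) (B.ρ g a.1)
      rw [ih]
      rfl
  have hid : ∀ a ∈ T, ((B.ρ g) ^ j) a = a := by
    intro a ha
    have := hpow j ⟨a, ha⟩
    rw [hj2] at this
    exact this.symm
  have hid2 : ∀ a ∈ T, ((B.ρ g) ^ (N * j)) a = a := by
    intro a ha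
    rw [mul_comm, pow_mul]
    have : ∀ i : ℕ, (((B.ρ g) ^ j) ^ i) a = a := by
      intro i
      induction i with
      | zero => rfl
      | succ i ih =>
        rw [pow_succ]
        show (((B.ρ g) ^ j) ^ i) (((B.ρ g) ^ j) a) = a
        rw [hid a ha, ih]
    exact this N
  obtain ⟨a, ha⟩ := hcon (N * j) (Nat.mul_pos hN hj) (k + 1)
  apply ha
  obtain ⟨q, hq, hcomm⟩ : ∃ q : AddMonoid.End M, (B.ρ g) ^ (N * j) - 1 = q * ((B.ρ g) ^ N - 1) ∧
      Commute q ((B.ρ g) ^ N - 1) := by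
    refine ⟨∑ i ∈ Finset.range j, ((B.ρ g) ^ N) ^ i, ?_, ?_⟩
    · rw [geom_sum_mul, pow_mul]
    · apply Commute.sum_left
      intro i _
      exact ((Commute.refl _).pow_left i).sub_right (Commute.one_right _)
  have h3 : (((B.ρ g) ^ (N * j) - 1) ^ k) a ∈ T := by
    rw [hq, hcomm.mul_pow]
    show (q ^ k) ((((B.ρ g) ^ N - 1) ^ k) a) ∈ T
    apply hTT
    obtain ⟨n, hn, h⟩ := hcon2 a
    exact ⟨n, hn, h⟩
  rw [pow_succ']
  show ((B.ρ g) ^ (N * j) - 1) ((((B.ρ g) ^ (N * j) - 1) ^ k) a) = 0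
  show ((B.ρ g) ^ (N * j)) _ - _ = 0
  rw [hid2 _ h3]
  exact sub_self _

theorem main (h : derivedSeries G 2 = ⊥) (U : UA G) :
    ∃ H : Subgroup G, H.FiniteIndex ∧ ∀ x ∈ H, ∀ y ∈ H, x * y = y * x := by
  obtain ⟨M, _, ⟨B⟩⟩ := exists_MB h
  have hlen := lenF U
  have hbb := boxB U hlen
  have hbd := boxD U
  have hbp : ∀ (K : Type) [AddCommGroup K], BoxP U K := fun K _ => boxP U hbd
  have hcup : ∀ (K : Type) [CommRing K], CupB U K := fun K _ => cupB U (hbp K)
  have hfg := MB_fg U B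
  have hfd := fin_dim U B hlen hbb (fun K _ => hcup K) hfg
  haveI := U.finA
  have hS : Subgroup.closure (((Set.finite_range U.mu).toFinset : Finset G) : Set G) = ⊤ := by
    rw [Set.Finite.coe_toFinset]
    exact closure_mu U
  have hT := tors_fin B hfd hfg _ hS
  have hqu := qu U hlen hbb (hbp ℂ) (hcup ℂ) B hfd hT
  exact star_va' U (star_of_qu U B hqu) hlen

end

end Pool.Agent.TH109.M
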